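import Pool.Agent.Helper49.HY.Ex
import Pool.Graph.R_seed8.W666.GB.Main

/-!
# Curvature tensors as plain functions
-/

set_option autoImplicit false
set_option linter.all false

namespace Pool.Agent.Helper49.HY

open Finset H824GB
open scoped RealInnerProductSpace

abbrev WAlg {V : Type*} [NormedAddCommGroup V] [InnerProductSpace ℝ V]
    (R : V → V → V → V → ℝ) : Prop := Pool.Agent.W666.GB.AlgCurv R

section lin

variable {V : Type*} [NormedAddCommGroup V] [InnerProductSpace ℝ V] {R : V → V → V → V → ℝ}

theorem walg_anti2 (h : WAlg R) (x y z w : V) : R x y z w = - R x y w z := by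
  rw [← h.pair x y z w, h.anti, h.pair]

theorem walg_add3 (h : WAlg R) (x y z z' w : V) :
    R x y (z + z') w = R x y z w + R x y z' w := by
  have h1 := h.pair x y (z + z') w
  have h2 := h.pair x y z w
  have h3 := h.pair x y z' w
  have h4 := h.add z z' w x y
  linarith

theorem walg_smul3 (h : WAlg R) (t : ℝ) (x y z w : V) :
    R x y (t • z) w = t * R x y z w := by
  have h1 := h.pair x y (t • z) w
  have h2 := h.pair x y z w
  have h4 := h.smul t z w x y
  rw [← h1, h4, h2]

theorem walg_add4 (h : WAlg R) (x y z w w' : V) :
    R x y z (w + w') = R x y z w + R x y z w' := by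
  have h1 := walg_anti2 h x y z (w + w')
  have h2 := walg_anti2 h x y z w
  have h3 := walg_anti2 h x y z w'
  have h4 := walg_add3 h x y w w' z
  linarith

theorem walg_smul4 (h : WAlg R) (t : ℝ) (x y z w : V) :
    R x y z (t • w) = t * R x y z w := by
  have h1 := walg_anti2 h x y z (t • w)
  have h2 := walg_anti2 h x y z w
  have h4 := walg_smul3 h t x y w z
  rw [h1, h2, h4]
  ring

/-- the multilinear map -/
noncomputable def toLin (h : WAlg R) : V →ₗ[ℝ] V →ₗ[ℝ] V →ₗ[ℝ] V →ₗ[ℝ] ℝ where
  toFun x :=
    { toFun := fun y =>
        { toFun := fun z =>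
            { toFun := fun w => R x y z w
              map_add' := fun w w' => walg_add4 h x y z w w'
              map_smul' := fun t w => by
                simp only [RingHom.id_apply, smul_eq_mul]
                exact walg_smul4 h t x y z w }
          map_add' := fun z z' => by
            ext w
            simp only [LinearMap.coe_mk, AddHom.coe_mk, LinearMap.add_apply]
            exact walg_add3 h x y z z' w
          map_smul' := fun t z => by
            ext w
            simp only [LinearMap.coe_mk, AddHom.coe_mk, LinearMap.smul_apply, RingHom.id_apply,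
              smul_eq_mul]
            exact walg_smul3 h t x y z w }
      map_add' := fun y y' => by
        ext z w
        simp only [LinearMap.coe_mk, AddHom.coe_mk, LinearMap.add_apply]
        linarith [h.anti x (y + y') z w, h.add y y' x z w, h.anti x y z w, h.anti x y' z w]
      map_smul' := fun t y => by
        ext z w
        simp only [LinearMap.coe_mk, AddHom.coe_mk, LinearMap.smul_apply, RingHom.id_apply,
          smul_eq_mul]
        rw [h.anti (t • y) x, h.smul, h.anti x y]
        ring }
  map_add' := fun x x' => by
    ext y z w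
    simp only [LinearMap.coe_mk, AddHom.coe_mk, LinearMap.add_apply]
    exact h.add x x' y z w
  map_smul' := fun t x => by
    ext y z w
    simp only [LinearMap.coe_mk, AddHom.coe_mk, LinearMap.smul_apply, RingHom.id_apply,
      smul_eq_mul]
    exact h.smul t x y z w

@[simp] theorem toLin_apply (h : WAlg R) (x y z w : V) : toLin h x y z w = R x y z w := rfl

theorem toLin_alg (h : WAlg R) : IsAlgCurv (toLin h) where
  antisymm₁ := fun x y z w => by simp only [toLin_apply]; rw [h.anti y x]
  antisymm₂ := fun x y z w => by simp only [toLin_apply]; exact walg_anti2 h x y z w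
  symm := fun x y z w => by simp only [toLin_apply]; exact (h.pair x y z w).symm
  bianchi := fun x y z w => by simp only [toLin_apply]; exact h.bianchi x y z w

end lin

/-- the index sets -/
def ixe (m : ℕ) : Fin m × Bool ≃ Fin m × Fin 2 := (Equiv.refl (Fin m)).prodCongr finTwoEquiv.symm

@[simp] theorem ixe_symm0 (m : ℕ) (i : Fin m) : (ixe m).symm (i, 0) = (i, false) := rfl
@[simp] theorem ixe_symm1 (m : ℕ) (i : Fin m) : (ixe m).symm (i, 1) = (i, true) := rfl

theorem gbc_eq {V : Type*} [NormedAddCommGroup V] [InnerProductSpace ℝ V] {m : ℕ}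
    (e : OrthonormalBasis (Fin m × Bool) ℝ V) {R : V → V → V → V → ℝ} (h : WAlg R) :
    Pool.Agent.W666.GB.gbc e R =
      gbInt m (toLin h) (e.reindex (ixe m)) / ((8 * Real.pi) ^ m * (m.factorial : ℝ)) := by
  unfold Pool.Agent.W666.GB.gbc gbInt
  rw [one_div, mul_comm, ← div_eq_mul_inv]
  congr 1
  refine Fintype.sum_equiv (ixe m).permCongr _ _ fun σ => ?_
  refine Fintype.sum_equiv (ixe m).permCongr _ _ fun τ => ?_
  rw [Equiv.Perm.sign_permCongr, Equiv.Perm.sign_permCongr]
  congr 1
  refine Finset.prod_congr rfl fun b _ => ?_
  simp only [toLin_apply, OrthonormalBasis.reindex_apply, Equiv.permCongr_apply,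
    Equiv.symm_apply_apply, ixe_symm0, ixe_symm1]

end Pool.Agent.Helper49.HY
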