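import Pool.Agent.Helper49.HY.Perm

/-!
# The Gauss-Bonnet sum of a tensor that is pure off one index
-/

set_option autoImplicit false
set_option linter.all false

namespace Pool.Agent.Helper49.HY

open Finset Pool.Agent.H933R2.HopfN

/-- components without the index `o` vanish unless the two pairs agree -/
def PureOff {ι : Type} (o : ι) (T : T4 ι) : Prop :=
  ∀ a b c d, a ≠ o → b ≠ o → c ≠ o → d ≠ o → ¬ ((a = c ∧ b = d) ∨ (a = d ∧ b = c)) →
    T a b c d = 0

variable {k : ℕ}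

theorem pure_pair {T : T4 (Pos (k + 2))} {o : Pos (k + 2)} (hp : PureOff o T)
    (σ π : Equiv.Perm (Pos (k + 2))) (i : Fin (k + 2)) (h0 : σ (i, 0) ≠ o) (h1 : σ (i, 1) ≠ o)
    (h2 : σ (π (i, 0)) ≠ o) (h3 : σ (π (i, 1)) ≠ o)
    (hT : T (σ (i, 0)) (σ (i, 1)) (σ (π (i, 0))) (σ (π (i, 1))) ≠ 0) :
    (π (i, 0) = (i, 0) ∧ π (i, 1) = (i, 1)) ∨ (π (i, 0) = (i, 1) ∧ π (i, 1) = (i, 0)) := by
  by_contra hc
  refine hT (hp _ _ _ _ h0 h1 h2 h3 ?_)
  rintro (⟨e1, e2⟩ | ⟨e1, e2⟩)
  · exact hc (Or.inl ⟨(σ.injective e1).symm, (σ.injective e2).symm⟩)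
  · exact hc (Or.inr ⟨(σ.injective e2).symm, (σ.injective e1).symm⟩)

theorem F_self (T : T4 (Pos (k + 2))) (σ π : Equiv.Perm (Pos (k + 2))) :
    Ff T σ (σ * π) =
      sg π * ∏ i, T (σ (i, 0)) (σ (i, 1)) (σ (π (i, 0))) (σ (π (i, 1))) := by
  unfold Ff
  rw [emb_sg_mul]
  simp only [Equiv.Perm.mul_apply]
  have := emb_sg_sq σ
  linear_combination (sg π * ∏ i, T (σ (i, 0)) (σ (i, 1)) (σ (π (i, 0))) (σ (π (i, 1)))) * this

/-- the diagonal product -/
def WW (T : T4 (Pos (k + 2))) (σ : Equiv.Perm (Pos (k + 2))) : ℝ :=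
  ∏ i, T (σ (i, 0)) (σ (i, 1)) (σ (i, 0)) (σ (i, 1))

theorem AA00 {T : T4 (Pos (k + 2))} {o : Pos (k + 2)}
    (ha2 : ∀ a b c d, T a b d c = - T a b c d) (hp : PureOff o T) :
    AA T o (0, 0) (0, 0) = 2 ^ (k + 1) *
      ∑ σ : Equiv.Perm (Pos (k + 2)), if σ (0, 0) = o then WW T σ else 0 := by
  unfold AA
  rw [mul_sum]
  refine sum_congr rfl fun σ _ => ?_
  by_cases hσ : σ (0, 0) = o
  · rw [if_pos hσ, ← Equiv.sum_comp (Equiv.mulLeft σ)]
    set f : Equiv.Perm (Pos (k + 2)) → ℝ := fun π =>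
      if π (0, 0) = (0, 0) then Ff T σ (σ * π) else 0 with hf
    have h1 : ∀ π : Equiv.Perm (Pos (k + 2)),
        (if σ (0, 0) = o ∧ (Equiv.mulLeft σ π) (0, 0) = o then Ff T σ (Equiv.mulLeft σ π) else 0) =
        f π := by
      intro π
      change (if σ (0, 0) = o ∧ σ (π (0, 0)) = o then Ff T σ (σ * π) else 0) = _
      simp only [hf]
      by_cases h2 : π (0, 0) = (0, 0)
      · rw [if_pos h2, if_pos ⟨hσ, by rw [h2]; exact hσ⟩]
      · rw [if_neg h2, if_neg]
        rintro ⟨-, h3⟩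
        exact h2 (σ.injective (h3.trans hσ.symm))
    rw [sum_congr rfl fun π _ => h1 π, fix_pairs (univ.erase (0 : Fin (k + 2))) f]
    · have hcard : (univ.erase (0 : Fin (k + 2))).card = k + 1 := by
        rw [card_erase_of_mem (mem_univ _), card_univ, Fintype.card_fin]
        omega
      rw [hcard]
      congr 1
      rw [sum_eq_single 1]
      · rw [if_pos (by intro i _; exact ⟨rfl, rfl⟩)]
        simp only [hf, Equiv.Perm.one_apply, if_true, F_self]
        have : sg (1 : Equiv.Perm (Pos (k + 2))) = 1 := by simp [sg]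
        rw [this, one_mul]
        rfl
      · intro π _ hπ
        by_cases h3 : ∀ i ∈ univ.erase (0 : Fin (k + 2)), π (i, 0) = (i, 0) ∧ π (i, 1) = (i, 1)
        · rw [if_pos h3]
          simp only [hf]
          rw [if_neg]
          intro h4
          apply hπ
          refine eq_one_of_fix π (0, 1) ?_
          rintro ⟨i, a⟩ hz
          by_cases hi : i = 0
          · subst hi
            fin_cases a
            · exact h4
            · exact absurd rfl hz
          · have h5 := h3 i (mem_erase.2 ⟨hi, mem_univ i⟩)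
            fin_cases a
            · exact h5.1
            · exact h5.2
        · rw [if_neg h3]
      · intro h; exact absurd (mem_univ _) h
    · intro i hi π
      have hi0 : i ≠ 0 := (mem_erase.1 hi).1
      simp only [hf, Equiv.Perm.mul_apply, sp_ne hi0.symm]
      rw [← mul_assoc, F_r ha2]
    · intro i hi π hne
      have hi0 : i ≠ 0 := (mem_erase.1 hi).1
      simp only [hf] at hne
      have h2 : π (0, 0) = (0, 0) := by
        by_contra h; rw [if_neg h] at hne; exact hne rfl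
      rw [if_pos h2, F_self] at hne
      have h3 := (prod_ne_zero_iff.1 (right_ne_zero_of_mul hne)) i (mem_univ i)
      have hn : ∀ a : Fin 2, ((i, a) : Pos (k + 2)) ≠ (0, 0) := fun a e =>
        hi0 (congrArg Prod.fst e)
      have hs : ∀ z : Pos (k + 2), z ≠ (0, 0) → σ z ≠ o := fun z hz e =>
        hz (σ.injective (e.trans hσ.symm))
      have hq : ∀ z : Pos (k + 2), z ≠ (0, 0) → π z ≠ (0, 0) := fun z hz e =>
        hz (π.injective (e.trans h2.symm))
      exact pure_pair hp σ π i (hs _ (hn 0)) (hs _ (hn 1)) (hs _ (hq _ (hn 0)))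
        (hs _ (hq _ (hn 1))) h3
  · rw [if_neg hσ, mul_zero]
    refine sum_eq_zero fun τ _ => ?_
    rw [if_neg fun h => hσ h.1]

/-- a permutation fixing all points but two -/
theorem two_fix {P : Type} [DecidableEq P] (ψ : Equiv.Perm P) (b c : P)
    (h : ∀ z, z ≠ b → z ≠ c → ψ z = z) : ψ = 1 ∨ ψ = Equiv.swap b c := by
  by_cases hb : ψ b = b
  · left
    refine eq_one_of_fix ψ c fun z hz => ?_
    by_cases hzb : z = b
    · rw [hzb, hb]
    · exact h z hzb hz
  · right
    have hc : ψ b = c := by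
      by_contra hne
      exact hb (ψ.injective (h (ψ b) hb hne))
    have h1 : Equiv.swap b c * ψ = 1 := by
      refine eq_one_of_fix _ c fun z hz => ?_
      rw [Equiv.Perm.mul_apply]
      by_cases hzb : z = b
      · rw [hzb, hc, Equiv.swap_apply_right]
      · rw [h z hzb hz, Equiv.swap_apply_of_ne_of_ne hzb hz]
    have h2 : ψ = (Equiv.swap b c)⁻¹ := eq_inv_of_mul_eq_one_right h1
    rw [h2, Equiv.swap_inv]

/-- the product over the pairs `2, 3, …` -/
def W2 (T : T4 (Pos (k + 2))) (σ : Equiv.Perm (Pos (k + 2))) : ℝ :=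
  ∏ j : Fin k, T (σ (j.succ.succ, 0)) (σ (j.succ.succ, 1)) (σ (j.succ.succ, 0))
    (σ (j.succ.succ, 1))

theorem ss_ne0 (j : Fin k) : (j.succ.succ : Fin (k + 2)) ≠ 0 := Fin.succ_ne_zero _

theorem ss_ne1 (j : Fin k) : (j.succ.succ : Fin (k + 2)) ≠ 1 := by
  intro h
  have h2 : (1 : Fin (k + 2)) = (0 : Fin (k + 1)).succ := by simp
  rw [h2] at h
  exact Fin.succ_ne_zero _ (Fin.succ_injective _ h)

theorem WW_eq (T : T4 (Pos (k + 2))) (σ : Equiv.Perm (Pos (k + 2))) :
    WW T σ = T (σ (0, 0)) (σ (0, 1)) (σ (0, 0)) (σ (0, 1)) *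
      (T (σ (1, 0)) (σ (1, 1)) (σ (1, 0)) (σ (1, 1)) * W2 T σ) := by
  unfold WW W2
  rw [Fin.prod_univ_succ, Fin.prod_univ_succ]
  simp only [Fin.succ_zero_eq_one]

/-- other pairs -/
def SS (k : ℕ) : Finset (Fin (k + 2)) := (univ.erase 0).erase 1

theorem mem_SS {i : Fin (k + 2)} : i ∈ SS k ↔ i ≠ 1 ∧ i ≠ 0 := by
  unfold SS
  simp [mem_erase]

theorem card_SS : (SS k).card = k := by
  unfold SS
  rw [card_erase_of_mem, card_erase_of_mem (mem_univ _), card_univ, Fintype.card_fin]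
  · omega
  · exact mem_erase.2 ⟨by simp, mem_univ _⟩

/-- the bracket -/
def br (T : T4 (Pos (k + 2))) (o : Pos (k + 2)) (p b c : Pos (k + 2)) : ℝ :=
  T o p b c ^ 2 - T o p p c * T o b b c - T o p p b * T o c c b

theorem AA01 {T : T4 (Pos (k + 2))} {o : Pos (k + 2)}
    (ha1 : ∀ a b c d, T b a c d = - T a b c d)
    (ha2 : ∀ a b c d, T a b d c = - T a b c d) (hps : ∀ a b c d, T c d a b = T a b c d)
    (hp : PureOff o T) :
    AA T o (0, 0) (1, 0) = 2 ^ (k + 1) *
      ∑ σ : Equiv.Perm (Pos (k + 2)), if σ (0, 0) = o then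
        W2 T σ * br T o (σ (0, 1)) (σ (1, 0)) (σ (1, 1)) else 0 := by
  unfold AA
  rw [mul_sum]
  refine sum_congr rfl fun σ _ => ?_
  by_cases hσ : σ (0, 0) = o
  swap
  · rw [if_neg hσ, mul_zero]
    refine sum_eq_zero fun τ _ => ?_
    rw [if_neg fun h => hσ h.1]
  rw [if_pos hσ, ← Equiv.sum_comp (Equiv.mulLeft σ)]
  set f : Equiv.Perm (Pos (k + 2)) → ℝ := fun π =>
    if π (1, 0) = (0, 0) then Ff T σ (σ * π) else 0 with hf
  have h1 : ∀ π : Equiv.Perm (Pos (k + 2)),
      (if σ (0, 0) = o ∧ (Equiv.mulLeft σ π) (1, 0) = o then Ff T σ (Equiv.mulLeft σ π) else 0) =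
      f π := by
    intro π
    change (if σ (0, 0) = o ∧ σ (π (1, 0)) = o then Ff T σ (σ * π) else 0) = _
    simp only [hf]
    by_cases h2 : π (1, 0) = (0, 0)
    · rw [if_pos h2, if_pos ⟨hσ, by rw [h2]; exact hσ⟩]
    · rw [if_neg h2, if_neg]
      rintro ⟨-, h3⟩
      exact h2 (σ.injective (h3.trans hσ.symm))
  rw [sum_congr rfl fun π _ => h1 π, fix_pairs (SS k) f]
  rotate_left
  · intro i hi π
    have hi1 : i ≠ 1 := (mem_SS.1 hi).1
    simp only [hf, Equiv.Perm.mul_apply, sp_ne hi1.symm]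
    rw [← mul_assoc, F_r ha2]
  · intro i hi π hne
    have hi0 : i ≠ 0 := (mem_SS.1 hi).2
    have hi1 : i ≠ 1 := (mem_SS.1 hi).1
    simp only [hf] at hne
    have h2 : π (1, 0) = (0, 0) := by
      by_contra h; rw [if_neg h] at hne; exact hne rfl
    rw [if_pos h2, F_self] at hne
    have h3 := (prod_ne_zero_iff.1 (right_ne_zero_of_mul hne)) i (mem_univ i)
    have hn : ∀ a : Fin 2, ((i, a) : Pos (k + 2)) ≠ (0, 0) := fun a e =>
      hi0 (congrArg Prod.fst e)
    have hn1 : ∀ a : Fin 2, ((i, a) : Pos (k + 2)) ≠ (1, 0) := fun a e =>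
      hi1 (congrArg Prod.fst e)
    have hs : ∀ z : Pos (k + 2), z ≠ (0, 0) → σ z ≠ o := fun z hz e =>
      hz (σ.injective (e.trans hσ.symm))
    have hq : ∀ z : Pos (k + 2), z ≠ (1, 0) → π z ≠ (0, 0) := fun z hz e =>
      hz (π.injective (e.trans h2.symm))
    exact pure_pair hp σ π i (hs _ (hn 0)) (hs _ (hn 1)) (hs _ (hq _ (hn1 0)))
      (hs _ (hq _ (hn1 1))) h3
  rw [card_SS, pow_succ, mul_assoc]
  congr 1
  -- the four positions
  obtain ⟨A, hA⟩ : ∃ A : Pos (k + 2), A = (0, 0) := ⟨_, rfl⟩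
  obtain ⟨B, hB⟩ : ∃ B : Pos (k + 2), B = (0, 1) := ⟨_, rfl⟩
  obtain ⟨C, hC⟩ : ∃ C : Pos (k + 2), C = (1, 0) := ⟨_, rfl⟩
  obtain ⟨D, hD⟩ : ∃ D : Pos (k + 2), D = (1, 1) := ⟨_, rfl⟩
  have hAB : A ≠ B := by rw [hA, hB]; simp
  have hAC : A ≠ C := by rw [hA, hC]; simp
  have hAD : A ≠ D := by rw [hA, hD]; simp
  have hBC : B ≠ C := by rw [hB, hC]; simp
  have hBD : B ≠ D := by rw [hB, hD]; simp
  have hCD : C ≠ D := by rw [hC, hD]; simp
  set g : Equiv.Perm (Pos (k + 2)) → ℝ := fun π =>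
    if (∀ i ∈ SS k, π (i, 0) = (i, 0) ∧ π (i, 1) = (i, 1)) then f π else 0 with hg
  have hcov : ∀ z : Pos (k + 2), z ≠ A → z ≠ B → z ≠ C → z ≠ D → z.1 ∈ SS k := by
    rintro ⟨i, a⟩ h1 h2 h3 h4
    rw [mem_SS]
    constructor
    · intro e
      change i = 1 at e
      subst e
      fin_cases a
      · exact h3 hC.symm
      · exact h4 hD.symm
    · intro e
      change i = 0 at e
      subst e
      fin_cases a
      · exact h1 hA.symm
      · exact h2 hB.symm
  have hgfix : ∀ π, g π ≠ 0 → (∀ z, z ≠ A → z ≠ B → z ≠ C → z ≠ D → π z = z) ∧ π C = A := by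
    intro π hne
    simp only [hg] at hne
    have h5 : ∀ i ∈ SS k, π (i, 0) = (i, 0) ∧ π (i, 1) = (i, 1) := by
      by_contra h; rw [if_neg h] at hne; exact hne rfl
    rw [if_pos h5] at hne
    simp only [hf] at hne
    have h6 : π (1, 0) = (0, 0) := by
      by_contra h; rw [if_neg h] at hne; exact hne rfl
    refine ⟨?_, by rw [hC, hA]; exact h6⟩
    intro z z1 z2 z3 z4
    have h7 := h5 z.1 (hcov z z1 z2 z3 z4)
    obtain ⟨i, a⟩ := z
    fin_cases a
    · exact h7.1
    · exact h7.2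
  have hgval : ∀ π : Equiv.Perm (Pos (k + 2)),
      (∀ z, z ≠ A → z ≠ B → z ≠ C → z ≠ D → π z = z) → π C = A →
      g π = sg π * (T (σ A) (σ B) (σ (π A)) (σ (π B)) *
        (T (σ C) (σ D) (σ (π C)) (σ (π D)) * W2 T σ)) := by
    intro π h5 h6
    have hz : ∀ i ∈ SS k, ∀ a : Fin 2, π (i, a) = (i, a) := by
      intro i hi a
      have hi0 : i ≠ 0 := (mem_SS.1 hi).2
      have hi1 : i ≠ 1 := (mem_SS.1 hi).1
      refine h5 _ ?_ ?_ ?_ ?_
      · rw [hA]; intro e; exact hi0 (congrArg Prod.fst e)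
      · rw [hB]; intro e; exact hi0 (congrArg Prod.fst e)
      · rw [hC]; intro e; exact hi1 (congrArg Prod.fst e)
      · rw [hD]; intro e; exact hi1 (congrArg Prod.fst e)
    simp only [hg]
    rw [if_pos fun i hi => ⟨hz i hi 0, hz i hi 1⟩]
    simp only [hf]
    rw [if_pos (by rw [← hC, h6, hA]), F_self, Fin.prod_univ_succ, Fin.prod_univ_succ]
    simp only [Fin.succ_zero_eq_one]
    have hW : ∏ i : Fin k, T (σ (i.succ.succ, 0)) (σ (i.succ.succ, 1))
        (σ (π (i.succ.succ, 0))) (σ (π (i.succ.succ, 1))) = W2 T σ := by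
      unfold W2
      refine prod_congr rfl fun j _ => ?_
      have hj : (j.succ.succ : Fin (k + 2)) ∈ SS k := mem_SS.2 ⟨ss_ne1 j, ss_ne0 j⟩
      rw [hz _ hj 0, hz _ hj 1]
    rw [hW, hA, hB, hC, hD]
  have hsum : ∑ π, g π = ∑ π, g (π * Equiv.swap A C) :=
    (Equiv.sum_comp (Equiv.mulRight (Equiv.swap A C)) g).symm
  change ∑ π, g π = _
  rw [hsum, sum_dec D (fun π => g (π * Equiv.swap A C))]
  -- support
  have hw : ∀ w, w ≠ B → w ≠ C → w ≠ D → ∑ π : Equiv.Perm (Pos (k + 2)),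
      (if π D = D then g (Equiv.swap D w * π * Equiv.swap A C) else 0) = 0 := by
    intro w w1 w2 w3
    refine sum_eq_zero fun π _ => ?_
    by_cases hπ : π D = D
    swap
    · rw [if_neg hπ]
    rw [if_pos hπ]
    by_contra hne
    obtain ⟨q1, q2⟩ := hgfix _ hne
    simp only [Equiv.Perm.mul_apply, Equiv.swap_apply_right] at q2
    by_cases hwA : w = A
    · subst hwA
      have h8 : Equiv.swap D w (π w) = Equiv.swap D w D := by
        rw [q2, Equiv.swap_apply_left]
      have h9 := (Equiv.swap D w).injective h8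
      exact hAD (π.injective (h9.trans hπ.symm))
    · have h8 := q1 w hwA w1 w2 w3
      simp only [Equiv.Perm.mul_apply] at h8
      rw [Equiv.swap_apply_of_ne_of_ne hwA w2] at h8
      have h9 : Equiv.swap D w (π w) = Equiv.swap D w D := by
        rw [h8, Equiv.swap_apply_left]
      have h10 := (Equiv.swap D w).injective h9
      exact w3 (π.injective (h10.trans hπ.symm))
  have hval : ∀ w, (w = B ∨ w = C ∨ w = D) → ∑ π : Equiv.Perm (Pos (k + 2)),
      (if π D = D then g (Equiv.swap D w * π * Equiv.swap A C) else 0) =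
      g (Equiv.swap D w * 1 * Equiv.swap A C) +
        g (Equiv.swap D w * Equiv.swap B C * Equiv.swap A C) := by
    intro w hw'
    have hwA : A ≠ w := by
      rcases hw' with h | h | h <;> rw [h]
      · exact hAB
      · exact hAC
      · exact hAD
    have hne : (1 : Equiv.Perm (Pos (k + 2))) ≠ Equiv.swap B C := by
      intro e
      have e2 := congrArg (fun ψ : Equiv.Perm (Pos (k + 2)) => ψ B) e
      simp only [Equiv.Perm.one_apply, Equiv.swap_apply_left] at e2
      exact hBC e2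
    rw [← sum_subset (subset_univ ({1, Equiv.swap B C} : Finset (Equiv.Perm (Pos (k + 2)))))]
    · rw [sum_pair hne, if_pos (by rfl),
        if_pos (Equiv.swap_apply_of_ne_of_ne hBD.symm hCD.symm)]
    · intro π _ hπ'
      by_cases hπ : π D = D
      swap
      · rw [if_neg hπ]
      rw [if_pos hπ]
      by_contra hg0
      obtain ⟨q1, q2⟩ := hgfix _ hg0
      simp only [Equiv.Perm.mul_apply, Equiv.swap_apply_right] at q2
      have hπA : π A = A := by
        have h8 : Equiv.swap D w (π A) = Equiv.swap D w A := by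
          rw [q2, Equiv.swap_apply_of_ne_of_ne hAD hwA]
        exact (Equiv.swap D w).injective h8
      apply hπ'
      have h9 : π = 1 ∨ π = Equiv.swap B C := by
        refine two_fix π B C fun z z1 z2 => ?_
        by_cases zA : z = A
        · rw [zA, hπA]
        by_cases zD : z = D
        · rw [zD, hπ]
        have h8 := q1 z zA z1 z2 zD
        simp only [Equiv.Perm.mul_apply] at h8
        rw [Equiv.swap_apply_of_ne_of_ne zA z2] at h8
        have hzw : z ≠ w := by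
          rcases hw' with h | h | h <;> rw [h]
          · exact z1
          · exact z2
          · exact zD
        have h10 : Equiv.swap D w (π z) = Equiv.swap D w z := by
          rw [h8, Equiv.swap_apply_of_ne_of_ne zD hzw]
        exact (Equiv.swap D w).injective h10
      rcases h9 with h | h
      · rw [h]; simp
      · rw [h]; simp
  rw [← sum_subset (subset_univ ({B, C, D} : Finset (Pos (k + 2))))]
  swap
  · intro w _ hw'
    simp only [mem_insert, mem_singleton, not_or] at hw'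
    exact hw w hw'.1 hw'.2.1 hw'.2.2
  rw [sum_insert (by simp [hBC, hBD]), sum_insert (by simp [hCD]), sum_singleton,
    hval B (Or.inl rfl), hval C (Or.inr (Or.inl rfl)), hval D (Or.inr (Or.inr rfl))]
  simp only [mul_one]
  have fixo : ∀ (x y : Pos (k + 2)), (x = A ∨ x = B ∨ x = C ∨ x = D) →
      (y = A ∨ y = B ∨ y = C ∨ y = D) → ∀ z, z ≠ A → z ≠ B → z ≠ C → z ≠ D →
      Equiv.swap x y z = z := by
    intro x y hx hy z z1 z2 z3 z4
    refine Equiv.swap_apply_of_ne_of_ne ?_ ?_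
    · rcases hx with h | h | h | h <;> rw [h] <;> assumption
    · rcases hy with h | h | h | h <;> rw [h] <;> assumption
  have oA : A = A ∨ A = B ∨ A = C ∨ A = D := Or.inl rfl
  have oB : B = A ∨ B = B ∨ B = C ∨ B = D := Or.inr (Or.inl rfl)
  have oC : C = A ∨ C = B ∨ C = C ∨ C = D := Or.inr (Or.inr (Or.inl rfl))
  have oD : D = A ∨ D = B ∨ D = C ∨ D = D := Or.inr (Or.inr (Or.inr rfl))
  -- swap values
  have acA : Equiv.swap A C A = C := Equiv.swap_apply_left _ _
  have acC : Equiv.swap A C C = A := Equiv.swap_apply_right _ _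
  have acB : Equiv.swap A C B = B := Equiv.swap_apply_of_ne_of_ne hAB.symm hBC
  have acD : Equiv.swap A C D = D := Equiv.swap_apply_of_ne_of_ne hAD.symm hCD.symm
  have bcB : Equiv.swap B C B = C := Equiv.swap_apply_left _ _
  have bcC : Equiv.swap B C C = B := Equiv.swap_apply_right _ _
  have bcA : Equiv.swap B C A = A := Equiv.swap_apply_of_ne_of_ne hAB hAC
  have bcD : Equiv.swap B C D = D := Equiv.swap_apply_of_ne_of_ne hBD.symm hCD.symm
  have dbD : Equiv.swap D B D = B := Equiv.swap_apply_left _ _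
  have dbB : Equiv.swap D B B = D := Equiv.swap_apply_right _ _
  have dbA : Equiv.swap D B A = A := Equiv.swap_apply_of_ne_of_ne hAD hAB
  have dbC : Equiv.swap D B C = C := Equiv.swap_apply_of_ne_of_ne hCD hBC.symm
  have dcD : Equiv.swap D C D = C := Equiv.swap_apply_left _ _
  have dcC : Equiv.swap D C C = D := Equiv.swap_apply_right _ _
  have dcA : Equiv.swap D C A = A := Equiv.swap_apply_of_ne_of_ne hAD hAC
  have dcB : Equiv.swap D C B = B := Equiv.swap_apply_of_ne_of_ne hBD hBC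
  have sAC : sg (Equiv.swap A C) = -1 := sg_swap hAC
  have sBC : sg (Equiv.swap B C) = -1 := sg_swap hBC
  have sDB : sg (Equiv.swap D B) = -1 := sg_swap hBD.symm
  have sDC : sg (Equiv.swap D C) = -1 := sg_swap hCD.symm
  have sDD : Equiv.swap D D = 1 := Equiv.swap_self D
  rw [sDD]
  simp only [one_mul]
  rw [hgval (Equiv.swap D B * Equiv.swap A C) (fun z z1 z2 z3 z4 => by
      rw [Equiv.Perm.mul_apply, fixo A C oA oC z z1 z2 z3 z4, fixo D B oD oB z z1 z2 z3 z4])
      (by rw [Equiv.Perm.mul_apply, acC, dbA]),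
    hgval (Equiv.swap D B * Equiv.swap B C * Equiv.swap A C) (fun z z1 z2 z3 z4 => by
      rw [Equiv.Perm.mul_apply, Equiv.Perm.mul_apply, fixo A C oA oC z z1 z2 z3 z4,
        fixo B C oB oC z z1 z2 z3 z4, fixo D B oD oB z z1 z2 z3 z4])
      (by rw [Equiv.Perm.mul_apply, Equiv.Perm.mul_apply, acC, bcA, dbA]),
    hgval (Equiv.swap D C * Equiv.swap A C) (fun z z1 z2 z3 z4 => by
      rw [Equiv.Perm.mul_apply, fixo A C oA oC z z1 z2 z3 z4, fixo D C oD oC z z1 z2 z3 z4])
      (by rw [Equiv.Perm.mul_apply, acC, dcA]),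
    hgval (Equiv.swap D C * Equiv.swap B C * Equiv.swap A C) (fun z z1 z2 z3 z4 => by
      rw [Equiv.Perm.mul_apply, Equiv.Perm.mul_apply, fixo A C oA oC z z1 z2 z3 z4,
        fixo B C oB oC z z1 z2 z3 z4, fixo D C oD oC z z1 z2 z3 z4])
      (by rw [Equiv.Perm.mul_apply, Equiv.Perm.mul_apply, acC, bcA, dcA]),
    hgval (Equiv.swap A C) (fun z z1 z2 z3 z4 => fixo A C oA oC z z1 z2 z3 z4) acC,
    hgval (Equiv.swap B C * Equiv.swap A C) (fun z z1 z2 z3 z4 => by
      rw [Equiv.Perm.mul_apply, fixo A C oA oC z z1 z2 z3 z4, fixo B C oB oC z z1 z2 z3 z4])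
      (by rw [Equiv.Perm.mul_apply, acC, bcA])]
  simp only [Equiv.Perm.mul_apply, emb_sg_mul, acA, acB, acC, acD, bcA, bcB, bcC, bcD, dbA, dbB,
    dbC, dbD, dcA, dcB, dcC, dcD, sAC, sBC, sDB, sDC]
  have hσA : σ A = o := by rw [hA]; exact hσ
  rw [← hB, ← hC, ← hD, hσA]
  obtain ⟨p, hp'⟩ : ∃ p, p = σ B := ⟨_, rfl⟩
  obtain ⟨b, hb'⟩ : ∃ b, b = σ C := ⟨_, rfl⟩
  obtain ⟨c, hc'⟩ : ∃ c, c = σ D := ⟨_, rfl⟩
  rw [← hp', ← hb', ← hc']
  unfold br
  rw [ha2 o p b c, ha2 o p p c, ha2 o p p b, hps o p b c, hps o b b c, hps o c b c, ha2 o c c b]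
  ring

end Pool.Agent.Helper49.HY
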