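import Pool.Agent.Helper49.HY.Main

/-!
# Restrictions of Gauss type and hyperplanes of constant curvature are pure
-/

set_option autoImplicit false
set_option linter.all false

namespace Pool.Agent.Helper49.HY

open Finset Pool.Agent.H933R2.HopfN H824GB
open scoped RealInnerProductSpace

variable {V : Type*} [NormedAddCommGroup V] [InnerProductSpace ℝ V]

/-- The restriction of `R` to `H` is `α g ∧ g + β g ∧ h + γ h ∧ h`, where `g` is the scalar product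
and `h` the symmetric form of a selfadjoint operator `S` of `H` (written in components). -/
def GaussType (R : V →ₗ[ℝ] V →ₗ[ℝ] V →ₗ[ℝ] V →ₗ[ℝ] ℝ) (H : Submodule ℝ V) : Prop :=
  ∃ (S : H →ₗ[ℝ] H) (α β γ : ℝ), S.IsSymmetric ∧ ∀ x y z w : H,
    R x y z w = α * (⟪x, z⟫ * ⟪y, w⟫ - ⟪x, w⟫ * ⟪y, z⟫) +
      β * (⟪S x, z⟫ * ⟪y, w⟫ + ⟪x, z⟫ * ⟪S y, w⟫ - ⟪S x, w⟫ * ⟪y, z⟫ - ⟪x, w⟫ * ⟪S y, z⟫) +
      γ * (⟪S x, z⟫ * ⟪S y, w⟫ - ⟪S x, w⟫ * ⟪S y, z⟫)

/-- All sectional curvatures of planes in `H` are equal. -/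
def ConstOn (R : V →ₗ[ℝ] V →ₗ[ℝ] V →ₗ[ℝ] V →ₗ[ℝ] ℝ) (H : Submodule ℝ V) : Prop :=
  ∃ c : ℝ, ∀ x ∈ H, ∀ y ∈ H, ‖x‖ = 1 → ‖y‖ = 1 → ⟪x, y⟫ = 0 → R x y x y = c

/-- an orthonormal basis of a hyperplane is part of an orthonormal basis -/
theorem exists_ext {m : ℕ} (e : OrthonormalBasis (Fin m × Fin 2) ℝ V) (hm : 1 ≤ m)
    (H : Submodule ℝ V) {n : ℕ} (hn : n + 1 = 2 * m) (b : OrthonormalBasis (Fin n) ℝ H) :
    ∃ (f : OrthonormalBasis (Fin m × Fin 2) ℝ V) (o : Fin m × Fin 2) (θ : {a // a ≠ o} ≃ Fin n),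
      ∀ a (h : a ≠ o), f a = (b (θ ⟨a, h⟩) : V) := by
  classical
  have hfd : FiniteDimensional ℝ V := e.toBasis.finiteDimensional_of_finite
  obtain ⟨o, -⟩ : ∃ o : Fin m × Fin 2, True := ⟨(⟨0, hm⟩, 0), trivial⟩
  have hcard : Fintype.card {a : Fin m × Fin 2 // a ≠ o} = Fintype.card (Fin n) := by
    rw [Fintype.card_subtype_compl]
    simp only [Fintype.card_prod, Fintype.card_fin, Fintype.card_subtype_eq]
    omega
  obtain ⟨θ⟩ : Nonempty ({a : Fin m × Fin 2 // a ≠ o} ≃ Fin n) := Fintype.card_eq.1 hcard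
  obtain ⟨v, hv⟩ : ∃ v : Fin m × Fin 2 → V, v = fun a => if h : a ≠ o then
    (b (θ ⟨a, h⟩) : V) else 0 := ⟨_, rfl⟩
  obtain ⟨s, hs⟩ : ∃ s : Set (Fin m × Fin 2), s = {a | a ≠ o} := ⟨_, rfl⟩
  have hva : ∀ a (h : a ≠ o), v a = (b (θ ⟨a, h⟩) : V) := by
    intro a h
    rw [hv]
    simp only
    rw [dif_pos h]
  have h1 : Orthonormal ℝ (s.restrict v) := by
    rw [orthonormal_iff_ite]
    rintro ⟨a, ha⟩ ⟨c, hc⟩
    rw [hs] at ha hc
    change ⟪v a, v c⟫ = _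
    rw [hva a ha, hva c hc, ← Submodule.coe_inner, orthonormal_iff_ite.1 b.orthonormal]
    by_cases hac : a = c
    · subst hac
      rw [if_pos rfl, if_pos rfl]
    · rw [if_neg, if_neg]
      · intro h; exact hac (congrArg Subtype.val h)
      · intro h
        exact hac (congrArg Subtype.val (θ.injective h))
  have h2 : Module.finrank ℝ V = Fintype.card (Fin m × Fin 2) :=
    Module.finrank_eq_card_basis e.toBasis
  obtain ⟨f, hf⟩ := h1.exists_orthonormalBasis_extension_of_card_eq h2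
  refine ⟨f, o, θ, fun a h => ?_⟩
  rw [hf a (by rw [hs]; exact h), hva a h]

/-- tensors of Gauss type are pure -/
theorem pure_of_gauss {m : ℕ} (e : OrthonormalBasis (Fin m × Fin 2) ℝ V) (hm : 1 ≤ m)
    (R : V →ₗ[ℝ] V →ₗ[ℝ] V →ₗ[ℝ] V →ₗ[ℝ] ℝ) (H : Submodule ℝ V)
    (hH : Module.finrank ℝ H + 1 = 2 * m) (h : GaussType R H) :
    ∃ (f : OrthonormalBasis (Fin m × Fin 2) ℝ V) (o : Fin m × Fin 2),
      (∀ a, a ≠ o → f a ∈ H) ∧ PureOn R f o := by
  classical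
  have hfd : FiniteDimensional ℝ V := e.toBasis.finiteDimensional_of_finite
  obtain ⟨S, α, β, γ, hS, hR⟩ := h
  obtain ⟨n, hn⟩ : ∃ n, Module.finrank ℝ H = n := ⟨_, rfl⟩
  obtain ⟨b, hb⟩ : ∃ b : OrthonormalBasis (Fin n) ℝ H, b = hS.eigenvectorBasis hn := ⟨_, rfl⟩
  obtain ⟨f, o, θ, hf⟩ := exists_ext e hm H (by rw [← hn]; exact hH) b
  refine ⟨f, o, fun a ha => by rw [hf a ha]; exact Subtype.coe_prop _, ?_⟩
  intro p q r t hp hq hr ht hne
  rw [hf p hp, hf q hq, hf r hr, hf t ht, hR]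
  have hin : ∀ i j, ⟪b i, b j⟫ = if i = j then (1 : ℝ) else 0 := fun i j =>
    orthonormal_iff_ite.1 b.orthonormal i j
  have hSb : ∀ i, S (b i) = (hS.eigenvalues hn i) • b i := by
    intro i
    rw [hb, hS.apply_eigenvectorBasis]
    simp
  have hθ : ∀ {p q : Fin m × Fin 2} (hp : p ≠ o) (hq : q ≠ o), θ ⟨p, hp⟩ = θ ⟨q, hq⟩ → p = q :=
    fun hp hq h => congrArg Subtype.val (θ.injective h)
  simp only [hSb, inner_smul_left, hin, conj_trivial]
  have h1 : ¬ (θ ⟨p, hp⟩ = θ ⟨r, hr⟩ ∧ θ ⟨q, hq⟩ = θ ⟨t, ht⟩) := fun h =>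
    hne (Or.inl ⟨hθ hp hr h.1, hθ hq ht h.2⟩)
  have h2 : ¬ (θ ⟨p, hp⟩ = θ ⟨t, ht⟩ ∧ θ ⟨q, hq⟩ = θ ⟨r, hr⟩) := fun h =>
    hne (Or.inr ⟨hθ hp ht h.1, hθ hq hr h.2⟩)
  by_cases a1 : θ ⟨p, hp⟩ = θ ⟨r, hr⟩
  · have a2 : ¬ θ ⟨q, hq⟩ = θ ⟨t, ht⟩ := fun h => h1 ⟨a1, h⟩
    by_cases a3 : θ ⟨p, hp⟩ = θ ⟨t, ht⟩
    · have a4 : ¬ θ ⟨q, hq⟩ = θ ⟨r, hr⟩ := fun h => h2 ⟨a3, h⟩
      simp [a2, a4]
    · simp [a2, a3]
  · by_cases a3 : θ ⟨p, hp⟩ = θ ⟨t, ht⟩
    · have a4 : ¬ θ ⟨q, hq⟩ = θ ⟨r, hr⟩ := fun h => h2 ⟨a3, h⟩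
      simp [a1, a4]
    · simp [a1, a3]

/-- a curvature tensor with vanishing diagonal values is zero -/
theorem zero_of_diag {W : Type*} [NormedAddCommGroup W] [InnerProductSpace ℝ W]
    {D : W →ₗ[ℝ] W →ₗ[ℝ] W →ₗ[ℝ] W →ₗ[ℝ] ℝ} (hD : IsAlgCurv D) (h : ∀ x y, D x y x y = 0)
    (x y z w : W) : D x y z w = 0 := by
  have h1 : ∀ x y z, D x y z y = 0 := by
    intro x y z
    have e1 := h (x + z) y
    simp only [map_add, LinearMap.add_apply] at e1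
    have e2 := h x y
    have e3 := h z y
    have e4 := hD.symm z y x y
    linarith
  have h2 : ∀ x y z w, D x w z y = - D x y z w := by
    intro x y z w
    have e1 := h1 x (y + w) z
    simp only [map_add, LinearMap.add_apply] at e1
    have e2 := h1 x y z
    have e3 := h1 x w z
    linarith
  have cyc : ∀ x y z w, D y z x w = D x y z w := by
    intro x y z w
    have e1 := h2 y x z w
    have e2 := hD.antisymm₂ y w z x
    have e3 := h2 y w x z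
    have e4 := hD.antisymm₁ x y z w
    linarith
  have b := hD.bianchi x y z w
  have c1 := cyc x y z w
  have c2 := cyc y z x w
  linarith

/-- hyperplanes of constant curvature are of Gauss type -/
theorem gauss_of_const {m : ℕ} (e : OrthonormalBasis (Fin m × Fin 2) ℝ V)
    {R : V →ₗ[ℝ] V →ₗ[ℝ] V →ₗ[ℝ] V →ₗ[ℝ] ℝ} (hR : IsAlgCurv R) (H : Submodule ℝ V)
    (h : ConstOn R H) : GaussType R H := by
  classical
  have hfd : FiniteDimensional ℝ V := e.toBasis.finiteDimensional_of_finite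
  obtain ⟨c, hc⟩ := h
  obtain ⟨b, -⟩ : ∃ b : OrthonormalBasis (Fin (Module.finrank ℝ H)) ℝ H, True :=
    ⟨stdOrthonormalBasis ℝ H, trivial⟩
  have hP : IsAlgCurv (pull H.subtype R) := pull_alg _ R hR
  have hD : IsAlgCurv (pull H.subtype R + (-c) • idT b) := sub_alg _ _ hP (idT_alg b) c
  have hv : ∀ x y z w : H, (pull H.subtype R + (-c) • idT b) x y z w =
      R x y z w - c * (⟪x, z⟫ * ⟪y, w⟫ - ⟪x, w⟫ * ⟪y, z⟫) := by
    intro x y z w
    simp only [LinearMap.add_apply, LinearMap.smul_apply, smul_eq_mul, idT_apply, pull_apply,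
      Submodule.subtype_apply]
    ring
  have horth : ∀ x y : H, ‖x‖ = 1 → ‖y‖ = 1 → ⟪x, y⟫ = 0 →
      (pull H.subtype R + (-c) • idT b) x y x y = 0 := by
    intro x y hx hy hxy
    have hyx : ⟪y, x⟫ = 0 := by rw [real_inner_comm]; exact hxy
    have h3 := hc x x.2 y y.2 hx hy hxy
    rw [hv, h3, real_inner_self_eq_norm_sq, real_inner_self_eq_norm_sq, hx, hy, hxy, hyx]
    ring
  have h1 : ∀ x y : H, (pull H.subtype R + (-c) • idT b) x y x y = 0 := by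
    intro x y
    refine le_antisymm ?_ ?_
    · have h4 := sec_of_orth ((-1 : ℝ) • (pull H.subtype R + (-c) • idT b)) (neg_alg hD)
        (fun x y hx hy hxy => by
          have := horth x y hx hy hxy
          simp only [LinearMap.smul_apply, smul_eq_mul, this]
          simp) x y
      simp only [LinearMap.smul_apply, smul_eq_mul] at h4
      linarith
    · exact sec_of_orth _ hD (fun x y hx hy hxy => (horth x y hx hy hxy).ge) x y
  refine ⟨0, c, 0, 0, fun x y => by simp, ?_⟩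
  intro x y z w
  have h5 := zero_of_diag hD h1 x y z w
  rw [hv] at h5
  linarith

end Pool.Agent.Helper49.HY
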