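import Pool.Agent.Helper49.HY.Bridge

/-!
# Pure hyperplanes: the results for curvature tensors as plain functions
-/

set_option autoImplicit false
set_option linter.all false

namespace Pool.Agent.Helper49.HY.Fn

open Finset MeasureTheory Pool.Agent.W666.GB

section defs

variable {V : Type*} [NormedAddCommGroup V] [InnerProductSpace ℝ V]

/-- `R` is pure on the hyperplane spanned by the vectors `f a`, `a ≠ o`: the components
`R (f a) (f b) (f c) (f d)` without the index `o` vanish unless `{a, b} = {c, d}`. -/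
def PureOn {ι : Type} (R : V → V → V → V → ℝ) (f : ι → V) (o : ι) : Prop :=
  ∀ a b c d, a ≠ o → b ≠ o → c ≠ o → d ≠ o → ¬ ((a = c ∧ b = d) ∨ (a = d ∧ b = c)) →
    R (f a) (f b) (f c) (f d) = 0

/-- The restriction of `R` to some hyperplane is pure, i.e. diagonal in an orthonormal basis of the
hyperplane: there is an orthonormal basis `f` of the space and an index `o` such that `R` is pure
on the hyperplane spanned by the vectors `f a`, `a ≠ o`. -/
def HyperPure (m : ℕ) (R : V → V → V → V → ℝ) : Prop :=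
  ∃ (f : OrthonormalBasis (Fin m × Bool) ℝ V) (o : Fin m × Bool), PureOn R f o

/-- `R` is pure on the subspace `H` of dimension `2 m - 1`: `R` is pure on the span of the vectors
`f a`, `a ≠ o`, of an orthonormal basis `f`, and these vectors are in `H`. -/
def PureSub (m : ℕ) (R : V → V → V → V → ℝ) (H : Submodule ℝ V) : Prop :=
  ∃ (f : OrthonormalBasis (Fin m × Bool) ℝ V) (o : Fin m × Bool),
    (∀ a, a ≠ o → f a ∈ H) ∧ PureOn R f o

/-- all planes containing one of the vectors `f a`, `a ≠ o`, have curvature at most `κ` -/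
def PlanesLe {ι : Type} (R : V → V → V → V → ℝ) (f : ι → V) (o : ι) (κ : ℝ) : Prop :=
  ∀ a, a ≠ o → ∀ x : V, ‖x‖ = 1 → inner ℝ (f a) x = 0 → R (f a) x (f a) x ≤ κ

/-- all sectional curvatures are at most `κ` -/
def SecLe (R : V → V → V → V → ℝ) (κ : ℝ) : Prop :=
  ∀ x y : V, ‖x‖ = 1 → ‖y‖ = 1 → inner ℝ x y = 0 → R x y x y ≤ κ

/-- all sectional curvatures are negative -/
def SecNeg (R : V → V → V → V → ℝ) : Prop :=
  ∀ x y : V, ‖x‖ = 1 → ‖y‖ = 1 → inner ℝ x y = 0 → R x y x y < 0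

/-- all planes in `H` have the same curvature -/
def ConstOn (R : V → V → V → V → ℝ) (H : Submodule ℝ V) : Prop :=
  ∃ c : ℝ, ∀ x ∈ H, ∀ y ∈ H, ‖x‖ = 1 → ‖y‖ = 1 → inner ℝ x y = 0 → R x y x y = c

/-- the bilinear form of an operator -/
noncomputable def fm {W : Type*} [NormedAddCommGroup W] [InnerProductSpace ℝ W]
    (S : W →ₗ[ℝ] W) (x y : W) : ℝ := inner ℝ (S x) y

/-- the product of two symmetric forms, an algebraic curvature tensor -/
def kn {W : Type*} (P Q : W → W → ℝ) (x y z w : W) : ℝ :=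
  P x z * Q y w + Q x z * P y w - P x w * Q y z - Q x w * P y z

/-- On `H` the tensor `R` is `α g ∧ g + β g ∧ h + γ h ∧ h`, where `g` is the scalar product
and `h` the symmetric form of a selfadjoint operator `S` of `H`. -/
def GaussOn (R : V → V → V → V → ℝ) (H : Submodule ℝ V) : Prop :=
  ∃ (S : H →ₗ[ℝ] H) (α β γ : ℝ), S.IsSymmetric ∧ ∀ x y z w : H,
    R x y z w = α * kn (fm 1) (fm 1) x y z w + β * kn (fm 1) (fm S) x y z w +
      γ * kn (fm S) (fm S) x y z w

end defs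

section point

variable {V : Type*} [NormedAddCommGroup V] [InnerProductSpace ℝ V] {m : ℕ}

theorem pure_conv {R : V → V → V → V → ℝ} (h : AlgCurv R)
    {f : OrthonormalBasis (Fin m × Bool) ℝ V} {o : Fin m × Bool} (hp : PureOn R f o) :
    HY.PureOn (toLin h) (f.reindex (ixe m)) (ixe m o) := by
  intro a b c d ha hb hc hd hn
  simp only [toLin_apply, OrthonormalBasis.reindex_apply]
  have key : ∀ a, a ≠ ixe m o → (ixe m).symm a ≠ o := fun a ha hq =>
    ha (by rw [← hq, Equiv.apply_symm_apply])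
  refine hp _ _ _ _ (key a ha) (key b hb) (key c hc) (key d hd) ?_
  rintro (⟨h1, h2⟩ | ⟨h1, h2⟩)
  · exact hn (Or.inl ⟨(ixe m).symm.injective h1, (ixe m).symm.injective h2⟩)
  · exact hn (Or.inr ⟨(ixe m).symm.injective h1, (ixe m).symm.injective h2⟩)

theorem point (e : OrthonormalBasis (Fin m × Bool) ℝ V) {R : V → V → V → V → ℝ} (h : AlgCurv R)
    {f : OrthonormalBasis (Fin m × Bool) ℝ V} {o : Fin m × Bool} (hp : PureOn R f o) {κ : ℝ}
    (hκ : 0 ≤ κ) (hs : PlanesLe R f o (-κ)) : roundGB m κ ≤ (-1) ^ m * gbc e R := by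
  have h1 := point_bound (e.reindex (ixe m)) (f.reindex (ixe m)) (toLin_alg h) (pure_conv h hp)
    hκ (by
      intro a ha x hx hfx
      simp only [toLin_apply, OrthonormalBasis.reindex_apply] at hfx ⊢
      exact hs _ (fun hq => ha (by rw [← hq, Equiv.apply_symm_apply])) x hx hfx)
  have hπ := Real.pi_pos
  have hn : 0 < (8 * Real.pi) ^ m * (m.factorial : ℝ) := by positivity
  rw [gbc_eq e h, ← mul_div_assoc]
  have h2 : roundGB m κ = (2 * κ) ^ m * ((2 * m).factorial : ℝ) /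
      ((8 * Real.pi) ^ m * (m.factorial : ℝ)) := by
    unfold roundGB
    have h3 : (8 * Real.pi) ^ m = 2 ^ m * (4 * Real.pi) ^ m := by
      rw [← mul_pow]; congr 1; ring
    rw [h3, mul_pow (2 : ℝ) κ]
    field_simp
  rw [h2]
  exact div_le_div_of_nonneg_right h1 hn.le

theorem planes_of_sec {R : V → V → V → V → ℝ} (f : OrthonormalBasis (Fin m × Bool) ℝ V)
    (o : Fin m × Bool) {κ : ℝ} (hs : SecLe R κ) : PlanesLe R f o κ :=
  fun a _ x hx hfx => hs (f a) x (f.norm_eq_one a) hx hfx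

theorem point_sec (e : OrthonormalBasis (Fin m × Bool) ℝ V) {R : V → V → V → V → ℝ}
    (h : AlgCurv R) (hp : HyperPure m R) {κ : ℝ} (hκ : 0 ≤ κ) (hs : SecLe R (-κ)) :
    roundGB m κ ≤ (-1) ^ m * gbc e R := by
  obtain ⟨f, o, hp⟩ := hp
  exact point e h hp hκ (planes_of_sec f o hs)

theorem gap (hm : 1 ≤ m) (e : OrthonormalBasis (Fin m × Bool) ℝ V) {R : V → V → V → V → ℝ}
    (h : AlgCurv R) (hs : SecNeg R) : ∃ κ : ℝ, 0 < κ ∧ SecLe R (-κ) := by
  obtain ⟨x, y, hx, hy, hxy, hmax⟩ := H824GB.max_pair (e.reindex (ixe m))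
    (toLin h) (e (⟨0, hm⟩, false)) (e (⟨0, hm⟩, true)) (e.norm_eq_one _) (e.norm_eq_one _)
    (e.orthonormal.2 (by simp))
  simp only [toLin_apply] at hmax
  refine ⟨-R x y x y, by have := hs x y hx hy hxy; linarith, ?_⟩
  intro x' y' hx' hy' hxy'
  have := hmax x' y' hx' hy' hxy'
  linarith

theorem point_neg (hm : 1 ≤ m) (e : OrthonormalBasis (Fin m × Bool) ℝ V)
    {R : V → V → V → V → ℝ} (h : AlgCurv R) (hp : HyperPure m R) (hs : SecNeg R) :
    0 < (-1) ^ m * gbc e R := by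
  obtain ⟨κ, hκ, h1⟩ := gap hm e h hs
  exact (roundGB_pos hκ).trans_le (point_sec e h hp hκ.le h1)

theorem pure_back {R : V → V → V → V → ℝ} (h : AlgCurv R) {H : Submodule ℝ V}
    (hp : ∃ (f : OrthonormalBasis (Fin m × Fin 2) ℝ V) (o : Fin m × Fin 2),
      (∀ a, a ≠ o → f a ∈ H) ∧ HY.PureOn (toLin h) f o) : PureSub m R H := by
  obtain ⟨f, o, hH, hp⟩ := hp
  refine ⟨f.reindex (ixe m).symm, (ixe m).symm o, ?_, ?_⟩
  · intro a ha
    rw [OrthonormalBasis.reindex_apply, Equiv.symm_symm]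
    exact hH _ fun hq => ha (by rw [← hq, Equiv.symm_apply_apply])
  intro a b c d ha hb hc hd hn
  simp only [OrthonormalBasis.reindex_apply, Equiv.symm_symm]
  have key : ∀ a, a ≠ (ixe m).symm o → ixe m a ≠ o := fun a ha hq =>
    ha (by rw [← hq, Equiv.symm_apply_apply])
  have h1 := hp (ixe m a) (ixe m b) (ixe m c) (ixe m d) (key a ha) (key b hb) (key c hc)
    (key d hd) (by
      rintro (⟨h1, h2⟩ | ⟨h1, h2⟩)
      · exact hn (Or.inl ⟨(ixe m).injective h1, (ixe m).injective h2⟩)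
      · exact hn (Or.inr ⟨(ixe m).injective h1, (ixe m).injective h2⟩))
  simpa only [toLin_apply] using h1

theorem pure_of (e : OrthonormalBasis (Fin m × Bool) ℝ V) (hm : 1 ≤ m) {R : V → V → V → V → ℝ}
    (h : AlgCurv R) (H : Submodule ℝ V) (hH : Module.finrank ℝ H + 1 = 2 * m)
    (hc : ConstOn R H ∨ GaussOn R H) : PureSub m R H := by
  refine pure_back h ?_
  refine pure_of_gauss (e.reindex (ixe m)) hm (toLin h) H hH ?_
  obtain ⟨c, hc⟩ | ⟨S, α, β, γ, hS, hR⟩ := hc
  · exact gauss_of_const (e.reindex (ixe m)) (toLin_alg h) H ⟨c, fun x hx y hy => by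
      simpa only [toLin_apply] using hc x hx y hy⟩
  · refine ⟨S, 2 * α, β, 2 * γ, hS, fun x y z w => ?_⟩
    rw [toLin_apply, hR]
    unfold kn fm
    simp only [Module.End.one_apply]
    ring

end point

section int

variable {m : ℕ} {M : Type}

theorem point_nonneg (K : CurvField m M) (p : M) (hp : HyperPure m (K.R p))
    (hs : SecLe (K.R p) 0) : 0 ≤ (-1) ^ m * K.gb p := by
  refine le_trans ?_ (point_sec (K.e p) (K.curv p) hp le_rfl (by rw [neg_zero]; exact hs))
  have := Real.pi_pos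
  unfold roundGB
  positivity

theorem int_all [MeasurableSpace M] (hm : 1 ≤ m) (μ : Measure M) (K : CurvField m M)
    (h : ∀ᵐ p ∂μ, HyperPure m (K.R p) ∧ SecLe (K.R p) 0) :
    0 ≤ (-1) ^ m * ∫ p, K.gb p ∂μ ∧
    (Integrable K.gb μ → ∀ κ : M → ℝ, Integrable (fun p => roundGB m (κ p)) μ →
      (∀ᵐ p ∂μ, 0 ≤ κ p ∧ SecLe (K.R p) (-κ p)) →
      ∫ p, roundGB m (κ p) ∂μ ≤ (-1) ^ m * ∫ p, K.gb p ∂μ) ∧
    (Integrable K.gb μ → μ {p | SecNeg (K.R p)} ≠ 0 → 0 < (-1) ^ m * ∫ p, K.gb p ∂μ) := by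
  have h0 : 0 ≤ᵐ[μ] fun p => (-1) ^ m * K.gb p := by
    filter_upwards [h] with p hp
    exact point_nonneg K p hp.1 hp.2
  rw [← integral_const_mul]
  refine ⟨integral_nonneg_of_ae h0, ?_, ?_⟩
  · intro hi κ hκi hκ
    refine integral_mono_ae hκi (hi.const_mul _) ?_
    filter_upwards [h, hκ] with p hp hq
    exact point_sec (K.e p) (K.curv p) hp.1 hq.1 hq.2
  · intro hi hμ
    rw [integral_pos_iff_support_of_nonneg_ae h0 (hi.const_mul _)]
    refine pos_iff_ne_zero.2 ?_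
    intro h1
    apply hμ
    have h2 : ∀ᵐ p ∂μ, p ∉ Function.support fun p => (-1) ^ m * K.gb p :=
      measure_eq_zero_iff_ae_notMem.1 h1
    rw [measure_eq_zero_iff_ae_notMem]
    filter_upwards [h, h2] with p hp hq hr
    exact hq (point_neg hm (K.e p) (K.curv p) hp.1 hr).ne'

end int

end Pool.Agent.Helper49.HY.Fn
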