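import Pool.Agent.Helper49.HY.Ineq
import Pool.Graph.R_pool_sql_team_seeded_f0cf7b00.H933R2.HopfN.EXPAND
import Pool.Graph.R_pool_sql_team_seeded_f0cf7b00.H933R2.HopfN.CONTR
import Pool.Graph.R_pool_sql_team_seeded_f0cf7b00.H933R2.HopfN.Field

/-!
# Curvature tensors whose restriction to a hyperplane is pure
-/

set_option autoImplicit false
set_option linter.all false

namespace Pool.Agent.Helper49.HY

open Finset Pool.Agent.H933R2.HopfN H824GB
open scoped RealInnerProductSpace

/-- restriction to the image of an embedding through `o` -/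
theorem Adm.res {ι : Type} [Fintype ι] [DecidableEq ι] {o : ι} {T : T4 ι} (h : Adm o T)
    {P : Type} [Fintype P] [DecidableEq P] (f : P ↪ ι) {o' : P} (ho : f o' = o) :
    Adm o' (res4 f T) where
  a1 a b c d := h.a1 _ _ _ _
  a2 a b c d := h.a2 _ _ _ _
  ps a b c d := h.ps _ _ _ _
  pure a b c d ha hb hc hd hn := by
    have key : ∀ a, a ≠ o' → f a ≠ o := fun a ha e => ha (f.injective (e.trans ho.symm))
    refine h.pure _ _ _ _ (key a ha) (key b hb) (key c hc) (key d hd) ?_
    rintro (⟨e1, e2⟩ | ⟨e1, e2⟩)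
    · exact hn (Or.inl ⟨f.injective e1, f.injective e2⟩)
    · exact hn (Or.inr ⟨f.injective e1, f.injective e2⟩)
  nn a b := h.nn _ _
  zz p c hp hc := by
    have key : ∀ a, a ≠ o' → f a ≠ o := fun a ha e => ha (f.injective (e.trans ho.symm))
    have := h.zz (f p) (f c) (key p hp) (key c hc)
    intro h0
    have h1 := this h0
    rw [← ho] at h1
    exact h1
  jac p hp := by
    have key : ∀ a, a ≠ o' → f a ≠ o := fun a ha e => ha (f.injective (e.trans ho.symm))
    have h1 := h.jac (f p) (key p hp)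
    have h2 : ∑ c ∈ univ.erase o', wf (res4 f T) o' p c ≤ ∑ c ∈ univ.erase o, wf T o (f p) c := by
      have h3 : ∑ c ∈ univ.erase o', wf (res4 f T) o' p c =
          ∑ c ∈ (univ.erase o').map f, wf T o (f p) c := by
        rw [sum_map]
        refine sum_congr rfl fun c _ => ?_
        unfold wf res4
        rw [ho]
      rw [h3]
      refine sum_le_sum_of_subset_of_nonneg ?_ fun c _ _ => wf_nonneg h _ _
      intro c hc
      rw [mem_map] at hc
      obtain ⟨a, ha, rfl⟩ := hc
      exact mem_erase.2 ⟨key a (mem_erase.1 ha).1, mem_univ _⟩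
    refine h2.trans (h1.trans_eq ?_)
    unfold res4
    rw [ho]

/-- restriction to the image of an embedding avoiding `o` -/
theorem Adm.res' {ι : Type} [Fintype ι] [DecidableEq ι] {o : ι} {T : T4 ι} (h : Adm o T)
    {P : Type} [Fintype P] [DecidableEq P] (f : P ↪ ι) (ho : ∀ a, f a ≠ o) (o' : P) :
    Adm o' (res4 f T) := by
  have hpure : ∀ a b c d : P, ¬ ((a = c ∧ b = d) ∨ (a = d ∧ b = c)) → res4 f T a b c d = 0 := by
    intro a b c d hn
    refine h.pure _ _ _ _ (ho a) (ho b) (ho c) (ho d) ?_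
    rintro (⟨e1, e2⟩ | ⟨e1, e2⟩)
    · exact hn (Or.inl ⟨f.injective e1, f.injective e2⟩)
    · exact hn (Or.inr ⟨f.injective e1, f.injective e2⟩)
  have hz : ∀ p c, p ≠ o' → c ≠ o' → res4 f T o' p p c = 0 := by
    intro p c hp hc
    refine hpure _ _ _ _ ?_
    rintro (⟨e1, -⟩ | ⟨e1, -⟩)
    · exact hp e1.symm
    · exact hc e1.symm
  refine ⟨fun a b c d => h.a1 _ _ _ _, fun a b c d => h.a2 _ _ _ _, fun a b c d => h.ps _ _ _ _,
    fun a b c d _ _ _ _ hn => hpure a b c d hn, fun a b => h.nn _ _,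
    fun p c hp hc _ => hz p c hp hc, ?_⟩
  intro p hp
  rw [sum_eq_zero]
  · exact h.nn _ _
  · intro c hc
    unfold wf
    rw [hz p c hp (mem_erase.1 hc).1]
    simp

theorem GG_zero {ι : Type} [Fintype ι] (T : T4 ι) : GG 0 T = 1 := by
  simp [GG, sg]

/-- **All the contractions are nonnegative.** -/
theorem GG_nonneg {ι : Type} [Fintype ι] [DecidableEq ι] {o : ι} {T : T4 ι} (h : Adm o T)
    (j : ℕ) : 0 ≤ GG j T := by
  rcases Nat.eq_zero_or_pos j with hj | hj
  · subst hj
    rw [GG_zero]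
    exact zero_le_one
  have h1 := (emb_main.1 ι j T)
  have h2 : 0 ≤ ((2 * j).factorial : ℝ) * GG j T := by
    rw [h1]
    refine sum_nonneg fun f _ => ?_
    by_cases ho : ∃ a, f a = o
    · obtain ⟨o', ho'⟩ := ho
      exact gb_adm (h.res f ho')
    · push Not at ho
      exact gb_adm (h.res' f ho (⟨0, hj⟩, 0))
  exact nonneg_of_mul_nonneg_right h2 (by positivity)

/-- the lower bound in the presence of a constant curvature part -/
theorem gb_lower {m : ℕ} {o : Pos m} {T : T4 (Pos m)} (h : Adm o T) {κ : ℝ} (hκ : 0 ≤ κ) :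
    (2 * κ) ^ m * ((2 * m).factorial : ℝ) ≤
      gb m (fun a b c d => κ * Id4 a b c d + T a b c d) := by
  have hc : Fintype.card (Pos m) = 2 * m := by simp; ring
  rw [← emb_main.2 m, expand_main contr_main m (Pos m) hc κ T]
  have h1 : ∀ j ∈ range (m + 1), 0 ≤ (m.choose j : ℝ) * (2 * κ) ^ (m - j) *
      ((2 * m - 2 * j).factorial : ℝ) * GG j T := by
    intro j _
    have := GG_nonneg h j
    positivity
  have h2 := single_le_sum h1 (mem_range.2 (Nat.succ_pos m))
  simp only [Nat.choose_zero_right, Nat.cast_one, one_mul, Nat.sub_zero, mul_zero, GG_zero,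
    mul_one] at h2
  exact h2

end Pool.Agent.Helper49.HY
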