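import Pool.Agent.Helper49.HY.Eval

/-!
# Nonnegativity of the Gauss-Bonnet sum of tensors that are pure off one index
-/

set_option autoImplicit false
set_option linter.all false

namespace Pool.Agent.Helper49.HY

open Finset Pool.Agent.H933R2.HopfN

/-- weights -/
noncomputable def wf {ι : Type} (T : T4 ι) (o p c : ι) : ℝ := T o p p c ^ 2 / T p c p c

/-- the conditions used in the proof: symmetries, purity off `o`, nonnegative sectional curvatures
of the coordinate planes, and nonnegativity of the Jacobi operators of the basis vectors -/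
structure Adm {ι : Type} [Fintype ι] [DecidableEq ι] (o : ι) (T : T4 ι) : Prop where
  a1 : ∀ a b c d, T b a c d = - T a b c d
  a2 : ∀ a b c d, T a b d c = - T a b c d
  ps : ∀ a b c d, T c d a b = T a b c d
  pure : PureOff o T
  nn : ∀ a b, 0 ≤ T a b a b
  zz : ∀ p c, p ≠ o → c ≠ o → T p c p c = 0 → T o p p c = 0
  jac : ∀ p, p ≠ o → ∑ c ∈ univ.erase o, wf T o p c ≤ T o p o p

theorem wf_nonneg {ι : Type} [Fintype ι] [DecidableEq ι] {o : ι} {T : T4 ι} (h : Adm o T)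
    (p c : ι) : 0 ≤ wf T o p c := div_nonneg (sq_nonneg _) (h.nn p c)

theorem wf_mul {ι : Type} [Fintype ι] [DecidableEq ι] {o : ι} {T : T4 ι} (h : Adm o T)
    {p c : ι} (hp : p ≠ o) (hc : c ≠ o) : wf T o p c * T p c p c = T o p p c ^ 2 := by
  unfold wf
  by_cases h0 : T p c p c = 0
  · rw [h0, h.zz p c hp hc h0]; simp
  · rw [div_mul_cancel₀ _ h0]

theorem amgm {x y u v s t : ℝ} (hu : 0 ≤ u) (hv : 0 ≤ v) (hs : 0 ≤ s) (ht : 0 ≤ t)
    (hx : u * s = x ^ 2) (hy : v * t = y ^ 2) : 2 * (x * y) ≤ u * t + v * s := by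
  have h1 : (2 * (x * y)) ^ 2 ≤ (u * t + v * s) ^ 2 := by
    have : (2 * (x * y)) ^ 2 = 4 * ((u * s) * (v * t)) := by rw [hx, hy]; ring
    rw [this]
    nlinarith [sq_nonneg (u * t - v * s)]
  have h2 : 0 ≤ u * t + v * s := by positivity
  exact le_of_abs_le (abs_le_of_sq_le_sq h1 h2)

variable {k : ℕ}

/-- diagonal value of a pair -/
def KK (T : T4 (Pos (k + 2))) (σ : Equiv.Perm (Pos (k + 2))) (i : Fin (k + 2)) : ℝ :=
  T (σ (i, 0)) (σ (i, 1)) (σ (i, 0)) (σ (i, 1))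

/-- product over the pairs other than the first -/
def W1 (T : T4 (Pos (k + 2))) (σ : Equiv.Perm (Pos (k + 2))) : ℝ :=
  ∏ i ∈ univ.erase (0 : Fin (k + 2)), KK T σ i

theorem W1_eq (T : T4 (Pos (k + 2))) (σ : Equiv.Perm (Pos (k + 2))) :
    W1 T σ = T (σ (1, 0)) (σ (1, 1)) (σ (1, 0)) (σ (1, 1)) * W2 T σ := by
  have h0 : ∏ i, KK T σ i = KK T σ 0 * (KK T σ 1 * W2 T σ) := WW_eq T σ
  have h1 : ∀ g : Fin (k + 2) → ℝ, ∏ i ∈ univ.erase (0 : Fin (k + 2)), g i =
      ∏ j : Fin (k + 1), g j.succ := by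
    intro g
    symm
    refine prod_bij (fun j _ => j.succ) ?_ ?_ ?_ ?_
    · intro j _; exact mem_erase.2 ⟨Fin.succ_ne_zero j, mem_univ _⟩
    · intro i _ j _ e; exact Fin.succ_injective _ e
    · intro i hi
      obtain ⟨j, hj⟩ := Fin.exists_succ_eq.2 (mem_erase.1 hi).1
      exact ⟨j, mem_univ _, hj⟩
    · intro j _; rfl
  unfold W1
  rw [h1, Fin.prod_univ_succ]
  simp only [Fin.succ_zero_eq_one]
  rfl

theorem W1_nonneg {T : T4 (Pos (k + 2))} (hn : ∀ a b, 0 ≤ T a b a b)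
    (σ : Equiv.Perm (Pos (k + 2))) : 0 ≤ W1 T σ := prod_nonneg fun _ _ => hn _ _

theorem W2_nonneg {T : T4 (Pos (k + 2))} (hn : ∀ a b, 0 ≤ T a b a b)
    (σ : Equiv.Perm (Pos (k + 2))) : 0 ≤ W2 T σ := prod_nonneg fun _ _ => hn _ _

theorem W1_gr (T : T4 (Pos (k + 2))) (σ : Equiv.Perm (Pos (k + 2)))
    (ρ : Equiv.Perm (Fin (k + 2))) (h : ρ 0 = 0) : W1 T (σ * gr ρ) = W1 T σ := by
  unfold W1
  refine prod_equiv ρ ?_ ?_
  · intro i
    simp only [mem_erase, mem_univ, and_true]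
    constructor
    · intro hi e
      exact hi (ρ.injective (e.trans h.symm))
    · intro hi e
      exact hi (by rw [e, h])
  · intro i _
    rfl

theorem W1_sp {T : T4 (Pos (k + 2))} (ha1 : ∀ a b c d, T b a c d = - T a b c d)
    (ha2 : ∀ a b c d, T a b d c = - T a b c d) (σ : Equiv.Perm (Pos (k + 2)))
    (i : Fin (k + 2)) : W1 T (σ * sp i) = W1 T σ := by
  unfold W1
  refine prod_congr rfl fun j _ => ?_
  unfold KK
  simp only [Equiv.Perm.mul_apply]
  by_cases hj : j = i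
  · subst hj
    rw [sp_0, sp_1, ha1 (σ (j, 0)), ha2 (σ (j, 0)) (σ (j, 1)) (σ (j, 0))]
    ring
  · rw [sp_ne hj, sp_ne hj]

theorem W2_congr (T : T4 (Pos (k + 2))) (σ c : Equiv.Perm (Pos (k + 2)))
    (h : ∀ (j : Fin k) (a : Fin 2), c (j.succ.succ, a) = (j.succ.succ, a)) :
    W2 T (σ * c) = W2 T σ := by
  unfold W2
  refine prod_congr rfl fun j _ => ?_
  simp only [Equiv.Perm.mul_apply, h]

/-- the sum of all terms -/
theorem gb_formula {T : T4 (Pos (k + 2))} {o : Pos (k + 2)}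
    (ha1 : ∀ a b c d, T b a c d = - T a b c d)
    (ha2 : ∀ a b c d, T a b d c = - T a b c d) (hps : ∀ a b c d, T c d a b = T a b c d)
    (hp : PureOff o T) :
    gb (k + 2) T = 4 * ((k : ℝ) + 2) * 2 ^ (k + 1) *
      ((∑ σ : Equiv.Perm (Pos (k + 2)), if σ (0, 0) = o then
          T o (σ (0, 1)) o (σ (0, 1)) * W1 T σ else 0) +
       ((k : ℝ) + 1) * ∑ σ : Equiv.Perm (Pos (k + 2)), if σ (0, 0) = o then
          W2 T σ * br T o (σ (0, 1)) (σ (1, 0)) (σ (1, 1)) else 0) := by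
  rw [gb_split ha1 ha2 o, AA00 ha2 hp, AA01 ha1 ha2 hps hp]
  have h1 : ∀ σ : Equiv.Perm (Pos (k + 2)), (if σ (0, 0) = o then WW T σ else 0) =
      if σ (0, 0) = o then T o (σ (0, 1)) o (σ (0, 1)) * W1 T σ else 0 := by
    intro σ
    by_cases h : σ (0, 0) = o
    · rw [if_pos h, if_pos h, WW_eq, W1_eq, h]
    · rw [if_neg h, if_neg h]
  rw [sum_congr rfl fun σ _ => h1 σ]
  ring

/-- the sum over positions outside the first pair -/
theorem Z_le {T : T4 (Pos (k + 2))} {o : Pos (k + 2)} (h : Adm o T) :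
    2 * ((k : ℝ) + 1) * (∑ σ : Equiv.Perm (Pos (k + 2)), if σ (0, 0) = o then
        W1 T σ * wf T o (σ (0, 1)) (σ (1, 1)) else 0) ≤
      ∑ σ : Equiv.Perm (Pos (k + 2)), if σ (0, 0) = o then
        T o (σ (0, 1)) o (σ (0, 1)) * W1 T σ else 0 := by
  set Z : Pos (k + 2) → ℝ := fun z => ∑ σ : Equiv.Perm (Pos (k + 2)), if σ (0, 0) = o then
        W1 T σ * wf T o (σ (0, 1)) (σ z) else 0 with hZ
  have e1 : ∀ i, i ≠ 0 → Z (i, 0) = Z (i, 1) := by
    intro i hi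
    simp only [hZ]
    rw [← Equiv.sum_comp (Equiv.mulRight (sp i)) (fun σ => if σ (0, 0) = o then
        W1 T σ * wf T o (σ (0, 1)) (σ (i, 1)) else 0)]
    refine sum_congr rfl fun σ _ => ?_
    simp only [Equiv.coe_mulRight, W1_sp h.a1 h.a2, Equiv.Perm.mul_apply, sp_ne hi.symm, sp_1]
  have e2 : ∀ i, i ≠ 0 → Z (i, 1) = Z (1, 1) := by
    intro i hi
    simp only [hZ]
    have hρ : Equiv.swap 1 i 0 = (0 : Fin (k + 2)) :=
      Equiv.swap_apply_of_ne_of_ne (by simp) hi.symm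
    rw [← Equiv.sum_comp (Equiv.mulRight (gr (Equiv.swap 1 i))) (fun σ => if σ (0, 0) = o then
        W1 T σ * wf T o (σ (0, 1)) (σ (1, 1)) else 0)]
    refine sum_congr rfl fun σ _ => ?_
    simp only [Equiv.coe_mulRight, W1_gr T σ _ hρ, Equiv.Perm.mul_apply, gr_apply, hρ,
      Equiv.swap_apply_left]
  have e3 : ∑ z ∈ (univ.erase (0 : Fin (k + 2))) ×ˢ (univ : Finset (Fin 2)), Z z =
      2 * ((k : ℝ) + 1) * Z (1, 1) := by
    rw [sum_congr rfl (g := fun _ => Z (1, 1))]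
    · rw [sum_const, card_product, card_erase_of_mem (mem_univ _), card_univ, card_univ,
        Fintype.card_fin, Fintype.card_fin, nsmul_eq_mul]
      have : ((k + 2 - 1) * 2 : ℕ) = 2 * (k + 1) := by omega
      rw [this]
      push_cast
      ring
    · rintro ⟨i, a⟩ hz
      rw [mem_product] at hz
      have hi := (mem_erase.1 hz.1).1
      change i ≠ 0 at hi
      fin_cases a
      · exact (e1 i hi).trans (e2 i hi)
      · exact e2 i hi
  have e4 : ∑ z ∈ (univ.erase (0 : Fin (k + 2))) ×ˢ (univ : Finset (Fin 2)), Z z =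
      ∑ σ : Equiv.Perm (Pos (k + 2)), if σ (0, 0) = o then
        W1 T σ * ∑ z ∈ (univ.erase (0 : Fin (k + 2))) ×ˢ (univ : Finset (Fin 2)),
          wf T o (σ (0, 1)) (σ z) else 0 := by
    simp only [hZ]
    rw [sum_comm]
    refine sum_congr rfl fun σ _ => ?_
    by_cases hσ : σ (0, 0) = o
    · simp only [hσ, if_true, mul_sum]
    · simp only [hσ, if_false, sum_const_zero]
  have e5 := e3.symm.trans e4
  change 2 * ((k : ℝ) + 1) * Z (1, 1) ≤ _
  rw [e5]
  refine sum_le_sum fun σ _ => ?_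
  by_cases hσ : σ (0, 0) = o
  swap
  · rw [if_neg hσ, if_neg hσ]
  rw [if_pos hσ, if_pos hσ, mul_comm (T o (σ (0, 1)) o (σ (0, 1)))]
  refine mul_le_mul_of_nonneg_left ?_ (W1_nonneg h.nn σ)
  have hp : σ (0, 1) ≠ o := by
    intro e
    have := σ.injective (e.trans hσ.symm)
    simp at this
  refine le_trans ?_ (h.jac _ hp)
  have h6 : ∑ c ∈ univ.erase o, wf T o (σ (0, 1)) c =
      ∑ z ∈ univ.erase (0, 0), wf T o (σ (0, 1)) (σ z) := by
    symm
    refine sum_equiv σ ?_ (fun _ _ => rfl)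
    intro z
    simp only [mem_erase, mem_univ, and_true]
    constructor
    · intro hz e
      exact hz (σ.injective (e.trans hσ.symm))
    · intro hz e
      exact hz (by rw [e, hσ])
  rw [h6]
  refine sum_le_sum_of_subset_of_nonneg ?_ fun z _ _ => wf_nonneg h _ _
  rintro ⟨i, a⟩ hz
  rw [mem_product] at hz
  have hi := (mem_erase.1 hz.1).1
  change i ≠ 0 at hi
  refine mem_erase.2 ⟨?_, mem_univ _⟩
  intro e
  exact hi (congrArg Prod.fst e)

/-- **Nonnegativity of the Gauss-Bonnet sum**, at least two pairs. -/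
theorem gb_two {T : T4 (Pos (k + 2))} {o : Pos (k + 2)} (h : Adm o T) : 0 ≤ gb (k + 2) T := by
  rw [gb_formula h.a1 h.a2 h.ps h.pure]
  refine mul_nonneg (by positivity) ?_
  -- names
  set X : ℝ := ∑ σ : Equiv.Perm (Pos (k + 2)), if σ (0, 0) = o then
          T o (σ (0, 1)) o (σ (0, 1)) * W1 T σ else 0 with hX
  set Q : ℝ := ∑ σ : Equiv.Perm (Pos (k + 2)), if σ (0, 0) = o then
          W2 T σ * T o (σ (0, 1)) (σ (1, 0)) (σ (1, 1)) ^ 2 else 0 with hQ
  set Y : ℝ := ∑ σ : Equiv.Perm (Pos (k + 2)), if σ (0, 0) = o then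
          W2 T σ * (T o (σ (0, 1)) (σ (0, 1)) (σ (1, 1)) *
            T o (σ (1, 0)) (σ (1, 0)) (σ (1, 1))) else 0 with hY
  set Y' : ℝ := ∑ σ : Equiv.Perm (Pos (k + 2)), if σ (0, 0) = o then
          W2 T σ * (T o (σ (0, 1)) (σ (0, 1)) (σ (1, 0)) *
            T o (σ (1, 1)) (σ (1, 1)) (σ (1, 0))) else 0 with hY'
  set Z : ℝ := ∑ σ : Equiv.Perm (Pos (k + 2)), if σ (0, 0) = o then
          W1 T σ * wf T o (σ (0, 1)) (σ (1, 1)) else 0 with hZ
  set Z' : ℝ := ∑ σ : Equiv.Perm (Pos (k + 2)), if σ (0, 0) = o then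
          W2 T σ * (wf T o (σ (1, 0)) (σ (1, 1)) *
            T (σ (0, 1)) (σ (1, 1)) (σ (0, 1)) (σ (1, 1))) else 0 with hZ'
  have hbr : ∑ σ : Equiv.Perm (Pos (k + 2)), (if σ (0, 0) = o then
          W2 T σ * br T o (σ (0, 1)) (σ (1, 0)) (σ (1, 1)) else 0) = Q - Y - Y' := by
    rw [hQ, hY, hY', ← sum_sub_distrib, ← sum_sub_distrib]
    refine sum_congr rfl fun σ _ => ?_
    unfold br
    split_ifs <;> ring
  have hQ0 : 0 ≤ Q := sum_nonneg fun σ _ => by
    split_ifs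
    · exact mul_nonneg (W2_nonneg h.nn σ) (sq_nonneg _)
    · exact le_rfl
  have hYY : Y' = Y := by
    rw [hY, hY', ← Equiv.sum_comp (Equiv.mulRight (sp (1 : Fin (k + 2)))) (fun σ =>
      if σ (0, 0) = o then W2 T σ * (T o (σ (0, 1)) (σ (0, 1)) (σ (1, 1)) *
            T o (σ (1, 0)) (σ (1, 0)) (σ (1, 1))) else 0)]
    refine sum_congr rfl fun σ _ => ?_
    have h01 : (0 : Fin (k + 2)) ≠ 1 := by simp
    simp only [Equiv.coe_mulRight, Equiv.Perm.mul_apply, sp_ne h01, sp_0, sp_1,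
      W2_congr T σ (sp 1) (fun j a => sp_ne (ss_ne1 j) a)]
  have hZZ : Z' = Z := by
    obtain ⟨s, hs⟩ : ∃ s : Equiv.Perm (Pos (k + 2)), s = Equiv.swap (0, 1) (1, 0) := ⟨_, rfl⟩
    have s1 : s (0, 1) = (1, 0) := by rw [hs, Equiv.swap_apply_left]
    have s2 : s (1, 0) = (0, 1) := by rw [hs, Equiv.swap_apply_right]
    have s3 : s (0, 0) = (0, 0) := by
      rw [hs]; exact Equiv.swap_apply_of_ne_of_ne (by simp) (by simp)
    have s4 : s (1, 1) = (1, 1) := by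
      rw [hs]; exact Equiv.swap_apply_of_ne_of_ne (by simp) (by simp)
    have s5 : ∀ (j : Fin k) (a : Fin 2), s (j.succ.succ, a) = (j.succ.succ, a) := by
      intro j a
      rw [hs]
      refine Equiv.swap_apply_of_ne_of_ne ?_ ?_
      · intro e; exact ss_ne0 j (congrArg Prod.fst e)
      · intro e; exact ss_ne1 j (congrArg Prod.fst e)
    rw [hZ, hZ', ← Equiv.sum_comp (Equiv.mulRight s) (fun σ => if σ (0, 0) = o then
          W2 T σ * (wf T o (σ (1, 0)) (σ (1, 1)) *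
            T (σ (0, 1)) (σ (1, 1)) (σ (0, 1)) (σ (1, 1))) else 0)]
    refine sum_congr rfl fun σ _ => ?_
    simp only [Equiv.coe_mulRight, Equiv.Perm.mul_apply, s1, s2, s3, s4, W2_congr T σ s s5, W1_eq]
    split_ifs <;> ring
  have hYZ : 2 * Y ≤ Z + Z' := by
    rw [hY, hZ, hZ', mul_sum, ← sum_add_distrib]
    refine sum_le_sum fun σ _ => ?_
    by_cases hσ : σ (0, 0) = o
    swap
    · rw [if_neg hσ, if_neg hσ, if_neg hσ]; simp
    rw [if_pos hσ, if_pos hσ, if_pos hσ, W1_eq]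
    have hne : ∀ z : Pos (k + 2), z ≠ (0, 0) → σ z ≠ o := fun z hz e =>
      hz (σ.injective (e.trans hσ.symm))
    have n1 : σ (0, 1) ≠ o := hne _ (by simp)
    have n2 : σ (1, 0) ≠ o := hne _ (by simp)
    have n3 : σ (1, 1) ≠ o := hne _ (by simp)
    have ha := amgm (wf_nonneg h (σ (0, 1)) (σ (1, 1))) (wf_nonneg h (σ (1, 0)) (σ (1, 1)))
      (h.nn (σ (0, 1)) (σ (1, 1))) (h.nn (σ (1, 0)) (σ (1, 1)))
      (wf_mul h n1 n3) (wf_mul h n2 n3)
    have hw := W2_nonneg h.nn σ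
    nlinarith [mul_le_mul_of_nonneg_left ha hw]
  have hZX : 2 * ((k : ℝ) + 1) * Z ≤ X := Z_le h
  rw [hbr, hYY]
  have hk : (0 : ℝ) ≤ (k : ℝ) + 1 := by positivity
  nlinarith [mul_le_mul_of_nonneg_left hYZ hk, mul_nonneg hk hQ0]

/-- **Nonnegativity of the Gauss-Bonnet sum.** -/
theorem gb_adm : ∀ {j : ℕ} {T : T4 (Pos j)} {o : Pos j}, Adm o T → 0 ≤ gb j T := by
  intro j T o h
  rcases j with _ | _ | k
  · exact absurd o.1.2 (by simp)
  · -- one pair
    unfold gb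
    have key : ∀ σ τ : Equiv.Perm (Pos 1), 0 ≤ sg σ * sg τ *
        ∏ i : Fin 1, T (σ (i, 0)) (σ (i, 1)) (τ (i, 0)) (τ (i, 1)) := by
      intro σ τ
      have hσ : ∀ σ : Equiv.Perm (Pos 1), (sg σ = 1 ∧ σ (0, 0) = (0, 0) ∧ σ (0, 1) = (0, 1)) ∨
          (sg σ = -1 ∧ σ (0, 0) = (0, 1) ∧ σ (0, 1) = (0, 0)) := by
        intro σ
        rcases two_fix σ (0, 0) (0, 1) (by
          rintro ⟨i, a⟩ h1 h2
          have hi : i = 0 := Subsingleton.elim _ _
          subst hi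
          fin_cases a
          · exact absurd rfl h1
          · exact absurd rfl h2) with e | e
        · left
          rw [e]
          exact ⟨by simp [sg], rfl, rfl⟩
        · right
          rw [e]
          exact ⟨sg_swap (by simp), Equiv.swap_apply_left _ _, Equiv.swap_apply_right _ _⟩
      rw [Fin.prod_univ_one]
      have hn := h.nn (0, 0) (0, 1)
      have x1 := h.a1 (0, 0) (0, 1) (0, 0) (0, 1)
      have x2 := h.a2 (0, 0) (0, 1) (0, 0) (0, 1)
      have x3 := h.a2 (0, 1) (0, 0) (0, 0) (0, 1)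
      rcases hσ σ with ⟨q1, q2, q3⟩ | ⟨q1, q2, q3⟩ <;> rcases hσ τ with ⟨r1, r2, r3⟩ | ⟨r1, r2, r3⟩ <;>
        rw [q1, q2, q3, r1, r2, r3] <;> linarith
    exact sum_nonneg fun σ _ => sum_nonneg fun τ _ => key σ τ
  · exact gb_two h

end Pool.Agent.Helper49.HY
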