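import Pool.Agent.Helper49.HY.Frame

/-!
# The Gauss-Bonnet-Chern integrand of curvature tensors that are pure on a hyperplane
-/

set_option autoImplicit false
set_option linter.all false

namespace Pool.Agent.Helper49.HY

open Finset Pool.Agent.H933R2.HopfN H824GB
open scoped RealInnerProductSpace

section vec

variable {V : Type*} [NormedAddCommGroup V] [InnerProductSpace ℝ V]

/-- nonnegativity on the planes through the basis vectors of the hyperplane gives the conditions -/
theorem adm_of_jac {ι : Type} [Fintype ι] [DecidableEq ι] (f : ι → V)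
    {A : V →ₗ[ℝ] V →ₗ[ℝ] V →ₗ[ℝ] V →ₗ[ℝ] ℝ} (hA : IsAlgCurv A) {o : ι}
    (h0 : ∀ a, a ≠ o → ∀ x, 0 ≤ A x (f a) x (f a)) (hp : PureOff o (comp f A)) :
    Adm o (comp f A) := by
  have hc := fin_comp_curv f hA
  have hnn : ∀ a b, 0 ≤ comp f A a b a b := by
    intro a b
    by_cases hb : b = o
    · by_cases ha : a = o
      · rw [ha, hb]
        have := hc.a1 o o o o
        linarith
      · have h1 := h0 a ha (f b)
        have h2 := hc.a1 a b a b
        have h3 := hc.a2 b a a b
        change 0 ≤ comp f A b a b a at h1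
        linarith
    · exact h0 b hb (f a)
  -- the quadratic form
  have key : ∀ (p : ι), p ≠ o → ∀ t : ι → ℝ,
      0 ≤ comp f A o p o p - 2 * ∑ c ∈ univ.erase o, t c * comp f A o p p c +
        ∑ c ∈ univ.erase o, t c ^ 2 * comp f A p c p c := by
    intro p hpo t
    have h1 := h0 p hpo (f o + ∑ c ∈ univ.erase o, t c • f c)
    have h2 : A (f o + ∑ c ∈ univ.erase o, t c • f c) (f p)
        (f o + ∑ c ∈ univ.erase o, t c • f c) (f p) =
        (comp f A o p o p + ∑ a ∈ univ.erase o, t a * comp f A a p o p) +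
        ∑ c ∈ univ.erase o, t c * (comp f A o p c p +
          ∑ a ∈ univ.erase o, t a * comp f A a p c p) := by
      simp only [map_add, map_sum, map_smul, LinearMap.add_apply, LinearMap.sum_apply,
        LinearMap.smul_apply, smul_eq_mul, comp]
    rw [h2] at h1
    have e1 : ∀ a ∈ univ.erase o, t a * comp f A a p o p = -(t a * comp f A o p p a) := by
      intro a _
      rw [hc.ps o p a p, hc.a2 o p p a]
      ring
    have e2 : ∀ c ∈ univ.erase o, t c * (comp f A o p c p +
          ∑ a ∈ univ.erase o, t a * comp f A a p c p) =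
        -(t c * comp f A o p p c) + t c ^ 2 * comp f A p c p c := by
      intro c hcm
      have hco : c ≠ o := (mem_erase.1 hcm).1
      rw [sum_eq_single c]
      · rw [hc.a2 o p p c, hc.a1 p c c p, hc.a2 p c p c]
        ring
      · intro a ha hac
        have hao : a ≠ o := (mem_erase.1 ha).1
        rw [hp a p c p hao hpo hco hpo]
        · ring
        · rintro (⟨q, -⟩ | ⟨q1, q2⟩)
          · exact hac q
          · exact hac (q1.trans q2)
      · intro h; exact absurd hcm h
    rw [sum_congr rfl e1, sum_congr rfl e2, sum_add_distrib, sum_neg_distrib] at h1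
    linarith
  refine ⟨hc.a1, hc.a2, hc.ps, hp, hnn, ?_, ?_⟩
  · intro p c hpo hco hK
    by_contra hn
    set n := comp f A o p p c with hnd
    -- one coordinate
    have h1 : ∀ s : ℝ, 0 ≤ comp f A o p o p - 2 * (s * n) := by
      intro s
      have h2 := key p hpo (fun a => if a = c then s else 0)
      have h3 : ∑ a ∈ univ.erase o, (if a = c then s else 0) * comp f A o p p a = s * n := by
        rw [sum_eq_single c]
        · rw [if_pos rfl]
        · intro a _ ha; rw [if_neg ha, zero_mul]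
        · intro h; exact absurd (mem_erase.2 ⟨hco, mem_univ c⟩) h
      have h4 : ∑ a ∈ univ.erase o, (if a = c then s else 0) ^ 2 * comp f A p a p a = 0 := by
        rw [sum_eq_single c]
        · rw [hK, mul_zero]
        · intro a _ ha; rw [if_neg ha]; ring
        · intro h; exact absurd (mem_erase.2 ⟨hco, mem_univ c⟩) h
      rw [h3, h4] at h2
      linarith
    have h5 := h1 ((comp f A o p o p + 1) / (2 * n))
    have h6 : 2 * ((comp f A o p o p + 1) / (2 * n) * n) = comp f A o p o p + 1 := by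
      field_simp
    rw [h6] at h5
    linarith
  · intro p hpo
    have h2 := key p hpo (fun c => comp f A o p p c / comp f A p c p c)
    have h3 : ∀ c ∈ univ.erase o, comp f A o p p c / comp f A p c p c * comp f A o p p c =
        wf (comp f A) o p c := by
      intro c _
      unfold wf
      ring
    have h4 : ∀ c ∈ univ.erase o, (comp f A o p p c / comp f A p c p c) ^ 2 * comp f A p c p c =
        wf (comp f A) o p c := by
      intro c _
      unfold wf
      by_cases hK : comp f A p c p c = 0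
      · rw [hK]; simp
      · field_simp
    rw [sum_congr rfl h3, sum_congr rfl h4] at h2
    linarith

/-- `R` is pure on the hyperplane spanned by the vectors `f a`, `a ≠ o`: the components
`R (f a) (f b) (f c) (f d)` without the index `o` vanish unless `{a, b} = {c, d}`. -/
def PureOn {ι : Type} (R : V →ₗ[ℝ] V →ₗ[ℝ] V →ₗ[ℝ] V →ₗ[ℝ] ℝ) (f : ι → V) (o : ι) : Prop :=
  ∀ a b c d, a ≠ o → b ≠ o → c ≠ o → d ≠ o → ¬ ((a = c ∧ b = d) ∨ (a = d ∧ b = c)) →
    R (f a) (f b) (f c) (f d) = 0

theorem neg_alg {R : V →ₗ[ℝ] V →ₗ[ℝ] V →ₗ[ℝ] V →ₗ[ℝ] ℝ} (hR : IsAlgCurv R) :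
    IsAlgCurv ((-1 : ℝ) • R) where
  antisymm₁ := fun x y z w => by
    simp only [LinearMap.smul_apply, smul_eq_mul]
    rw [hR.antisymm₁ x y z w]; ring
  antisymm₂ := fun x y z w => by
    simp only [LinearMap.smul_apply, smul_eq_mul]
    rw [hR.antisymm₂ x y z w]; ring
  symm := fun x y z w => by
    simp only [LinearMap.smul_apply, smul_eq_mul]
    rw [hR.symm x y z w]
  bianchi := fun x y z w => by
    simp only [LinearMap.smul_apply, smul_eq_mul]
    linear_combination (-1 : ℝ) * hR.bianchi x y z w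

/-- **The pointwise bound.** -/
theorem point_bound {m : ℕ} (e f : OrthonormalBasis (Fin m × Fin 2) ℝ V)
    {R : V →ₗ[ℝ] V →ₗ[ℝ] V →ₗ[ℝ] V →ₗ[ℝ] ℝ} (hR : IsAlgCurv R) {o : Fin m × Fin 2}
    (hp : PureOn R f o) {κ : ℝ} (hκ : 0 ≤ κ)
    (hs : ∀ a, a ≠ o → ∀ x : V, ‖x‖ = 1 → ⟪f a, x⟫ = 0 → R (f a) x (f a) x ≤ -κ) :
    (2 * κ) ^ m * ((2 * m).factorial : ℝ) ≤ (-1) ^ m * gbInt m R e := by
  classical
  set N : V →ₗ[ℝ] V →ₗ[ℝ] V →ₗ[ℝ] V →ₗ[ℝ] ℝ := (-1 : ℝ) • R with hN
  set A : V →ₗ[ℝ] V →ₗ[ℝ] V →ₗ[ℝ] V →ₗ[ℝ] ℝ := N + (-κ) • idT f with hA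
  have hNa : IsAlgCurv N := neg_alg hR
  have hAa : IsAlgCurv A := sub_alg N (idT f) hNa (idT_alg f) κ
  have hAv : ∀ x y z w, A x y z w = - R x y z w - κ * (⟪x, z⟫ * ⟪y, w⟫ - ⟪x, w⟫ * ⟪y, z⟫) := by
    intro x y z w
    simp only [hA, hN, LinearMap.add_apply, LinearMap.smul_apply, smul_eq_mul, idT_apply]
    ring
  have hid : comp f (idT f) = Id4 := fin_comp_id f (idT_apply f)
  have hcomp : (fun a b c d => κ * Id4 a b c d + comp f A a b c d) = comp f N := by
    funext a b c d
    rw [← hid]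
    simp only [comp, hA, LinearMap.add_apply, LinearMap.smul_apply, smul_eq_mul]
    ring
  have hpure : PureOff o (comp f A) := by
    intro a b c d ha hb hc hd hn
    have h1 := hp a b c d ha hb hc hd hn
    have h2 : comp f (idT f) a b c d = 0 := by
      rw [hid]
      unfold Id4 kd
      by_cases h3 : a = c
      · by_cases h4 : b = d
        · exact absurd (Or.inl ⟨h3, h4⟩) hn
        · by_cases h5 : a = d
          · by_cases h6 : b = c
            · exact absurd (Or.inr ⟨h5, h6⟩) hn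
            · simp [h4, h6]
          · simp [h4, h5]
      · by_cases h5 : a = d
        · by_cases h6 : b = c
          · exact absurd (Or.inr ⟨h5, h6⟩) hn
          · simp [h3, h6]
        · simp [h3, h5]
    simp only [comp] at h2 ⊢
    simp only [hA, hN, LinearMap.add_apply, LinearMap.smul_apply, smul_eq_mul, h1, h2]
    ring
  have hjac : ∀ a, a ≠ o → ∀ x, 0 ≤ A x (f a) x (f a) := by
    intro a ha x
    have h0 : ∀ x z w, A x x z w = 0 := fun x z w => by
      have := hAa.antisymm₁ x x z w; linarith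
    have h0' : ∀ x z w, A z w x x = 0 := fun x z w => by
      have := hAa.antisymm₂ z w x x; linarith
    have hff : ⟪f a, f a⟫ = (1 : ℝ) := by
      rw [real_inner_self_eq_norm_sq, f.norm_eq_one]; norm_num
    obtain ⟨z, hz⟩ : ∃ z : V, z = x - ⟪f a, x⟫ • f a := ⟨_, rfl⟩
    have hx : x = z + ⟪f a, x⟫ • f a := by rw [hz]; abel
    have hfz : ⟪f a, z⟫ = 0 := by
      rw [hz, inner_sub_right, inner_smul_right, hff]; ring
    have e1 : A x (f a) x (f a) = A z (f a) z (f a) := by
      conv_lhs => rw [hx]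
      simp only [map_add, map_smul, LinearMap.add_apply, LinearMap.smul_apply, smul_eq_mul, h0,
        h0', mul_zero, add_zero]
    rw [e1]
    by_cases hz0 : z = 0
    · rw [hz0]; simp
    have hn : ‖z‖ ≠ 0 := norm_ne_zero_iff.2 hz0
    obtain ⟨u, hu⟩ : ∃ u : V, u = (‖z‖)⁻¹ • z := ⟨_, rfl⟩
    have hun : ‖u‖ = 1 := by
      rw [hu, norm_smul, norm_inv, norm_norm, inv_mul_cancel₀ hn]
    have hfu : ⟪f a, u⟫ = 0 := by rw [hu, inner_smul_right, hfz, mul_zero]
    have hzu : z = ‖z‖ • u := by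
      rw [hu, smul_smul, mul_inv_cancel₀ hn, one_smul]
    have e2 : A z (f a) z (f a) = ‖z‖ ^ 2 * A u (f a) u (f a) := by
      conv_lhs => rw [hzu]
      simp only [map_smul, LinearMap.smul_apply, smul_eq_mul]
      ring
    rw [e2]
    refine mul_nonneg (sq_nonneg _) ?_
    have huu : ⟪u, u⟫ = (1 : ℝ) := by rw [real_inner_self_eq_norm_sq, hun]; norm_num
    have huf : ⟪u, f a⟫ = 0 := by rw [real_inner_comm]; exact hfu
    rw [hAv, huu, hff, huf, hfu]
    have h7 := hs a ha u hun hfu
    have h8 := hR.antisymm₁ (f a) u (f a) u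
    have h9 := hR.antisymm₂ u (f a) (f a) u
    linarith
  have hadm : Adm o (comp f A) := adm_of_jac f hAa hjac hpure
  have h1 := gb_lower hadm hκ
  rw [hcomp] at h1
  have h2 : gb m (comp f N) = (-1) ^ m * gbInt m R e := by
    rw [← fin_gb, hN, gbInt_smul, gbInt_basis_indep m (fun x y z w => hR.symm x y z w) f e]
  rw [h2] at h1
  exact h1

end vec

/-- The restriction of the curvature tensor at `p` to some hyperplane is pure: there is an
orthonormal basis `f` of the tangent space and an index `o` such that the components of the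
curvature tensor without the index `o` vanish unless `{a, b} = {c, d}`. -/
def HyperPure {m : ℕ} {M : Type} (K : CurvField m M) (p : M) : Prop :=
  ∃ (f : OrthonormalBasis (Fin m × Fin 2) ℝ (K.V p)) (o : Fin m × Fin 2), PureOn (K.R p) f o

/-- all sectional curvatures at `p` are at most `κ` -/
def SecLe {m : ℕ} {M : Type} (K : CurvField m M) (p : M) (κ : ℝ) : Prop :=
  ∀ x y : K.V p, ‖x‖ = 1 → ‖y‖ = 1 → ⟪x, y⟫ = 0 → K.R p x y x y ≤ κ

/-- all sectional curvatures at `p` are negative -/
def SecNeg {m : ℕ} {M : Type} (K : CurvField m M) (p : M) : Prop :=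
  ∀ x y : K.V p, ‖x‖ = 1 → ‖y‖ = 1 → ⟪x, y⟫ = 0 → K.R p x y x y < 0

section field

variable {m : ℕ} {M : Type}

theorem field_point (K : CurvField m M) (p : M)
    (f : OrthonormalBasis (Fin m × Fin 2) ℝ (K.V p)) (o : Fin m × Fin 2)
    (hp : PureOn (K.R p) f o) {κ : ℝ} (hκ : 0 ≤ κ)
    (hs : ∀ a, a ≠ o → ∀ x : K.V p, ‖x‖ = 1 → ⟪f a, x⟫ = 0 → K.R p (f a) x (f a) x ≤ -κ) :
    roundGB m κ ≤ (-1) ^ m * K.gbc p := by
  have h1 := point_bound (K.e p) f (K.alg p) hp hκ hs
  have hn := field_norm m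
  rw [← field_round]
  unfold CurvField.gbc
  rw [← mul_div_assoc]
  exact div_le_div_of_nonneg_right h1 hn.le

theorem field_sec (K : CurvField m M) (p : M) (hp : HyperPure K p) {κ : ℝ} (hκ : 0 ≤ κ)
    (hs : SecLe K p (-κ)) : roundGB m κ ≤ (-1) ^ m * K.gbc p := by
  obtain ⟨f, o, h⟩ := hp
  exact field_point K p f o h hκ fun a _ x hx hfx => hs (f a) x (f.norm_eq_one a) hx hfx

theorem exists_gap (K : CurvField m M) (hm : 1 ≤ m) (p : M) (hs : SecNeg K p) :
    ∃ κ : ℝ, 0 < κ ∧ SecLe K p (-κ) := by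
  obtain ⟨x, y, hx, hy, hxy, hmax⟩ := max_pair (K.e p) (K.R p) (K.e p (⟨0, hm⟩, 0))
    (K.e p (⟨0, hm⟩, 1)) ((K.e p).norm_eq_one _) ((K.e p).norm_eq_one _)
    ((K.e p).orthonormal.2 (by simp))
  refine ⟨-K.R p x y x y, by have := hs x y hx hy hxy; linarith, ?_⟩
  intro x' y' hx' hy' hxy'
  have := hmax x' y' hx' hy' hxy'
  linarith

theorem field_neg (K : CurvField m M) (hm : 1 ≤ m) (p : M) (hp : HyperPure K p)
    (hs : SecNeg K p) : 0 < (-1) ^ m * K.gbc p := by
  obtain ⟨κ, hκ, h⟩ := exists_gap K hm p hs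
  exact (roundGB_pos hκ).trans_le (field_sec K p hp hκ.le h)

end field

end Pool.Agent.Helper49.HY
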