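import Pool.Graph.R_pool_sql_team_seeded_f0cf7b00.H933R2.HopfN.EMB

/-!
# Symmetries of the Gauss-Bonnet sum

Sums over pairs of permutations of the positions, sorted by the positions of a given index.
-/

set_option autoImplicit false
set_option linter.all false

namespace Pool.Agent.Helper49.HY

open Finset Pool.Agent.H933R2.HopfN

variable {k : ℕ}

/-- exchange of the two positions of the pair `i` -/
def sp (i : Fin (k + 2)) : Equiv.Perm (Pos (k + 2)) := Equiv.swap (i, 0) (i, 1)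

/-- permutation of the pairs -/
def gr (ρ : Equiv.Perm (Fin (k + 2))) : Equiv.Perm (Pos (k + 2)) :=
  Equiv.prodCongr ρ (Equiv.refl (Fin 2))

theorem sp_0 (i : Fin (k + 2)) : sp i (i, 0) = (i, 1) := by
  unfold sp; rw [Equiv.swap_apply_left]

theorem sp_1 (i : Fin (k + 2)) : sp i (i, 1) = (i, 0) := by
  unfold sp; rw [Equiv.swap_apply_right]

theorem sp_ne {i j : Fin (k + 2)} (h : j ≠ i) (a : Fin 2) : sp i (j, a) = (j, a) := by
  unfold sp
  refine Equiv.swap_apply_of_ne_of_ne ?_ ?_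
  · intro e; exact h (congrArg Prod.fst e)
  · intro e; exact h (congrArg Prod.fst e)

theorem gr_apply (ρ : Equiv.Perm (Fin (k + 2))) (i : Fin (k + 2)) (a : Fin 2) :
    gr ρ (i, a) = (ρ i, a) := rfl

theorem sg_sp (i : Fin (k + 2)) : sg (sp i) = -1 := by
  unfold sg sp
  rw [Equiv.Perm.sign_swap (by simp)]
  simp

theorem sg_swap {P : Type} [Fintype P] [DecidableEq P] {a b : P} (h : a ≠ b) :
    sg (Equiv.swap a b) = -1 := by
  unfold sg
  rw [Equiv.Perm.sign_swap h]
  simp

/-- the summand of the Gauss-Bonnet sum -/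
noncomputable def Ff (T : T4 (Pos (k + 2))) (σ τ : Equiv.Perm (Pos (k + 2))) : ℝ :=
  sg σ * sg τ * ∏ i, T (σ (i, 0)) (σ (i, 1)) (τ (i, 0)) (τ (i, 1))

theorem prod_flip (g g' : Fin (k + 2) → ℝ) (i : Fin (k + 2)) (h1 : g' i = - g i)
    (h2 : ∀ j, j ≠ i → g' j = g j) : ∏ j, g' j = - ∏ j, g j := by
  have e : ∀ j, g' j = (if j = i then (-1 : ℝ) else 1) * g j := by
    intro j
    by_cases hj : j = i
    · subst hj
      rw [if_pos rfl, h1]; ring
    · rw [if_neg hj, h2 j hj]; ring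
  rw [prod_congr rfl fun j _ => e j, prod_mul_distrib, prod_ite_eq' univ i, if_pos (mem_univ i)]
  ring

theorem F_r {T : T4 (Pos (k + 2))} (ha : ∀ a b c d, T a b d c = - T a b c d)
    (σ τ : Equiv.Perm (Pos (k + 2))) (i : Fin (k + 2)) : Ff T σ (τ * sp i) = Ff T σ τ := by
  unfold Ff
  rw [prod_flip (fun j => T (σ (j, 0)) (σ (j, 1)) (τ (j, 0)) (τ (j, 1)))
    (fun j => T (σ (j, 0)) (σ (j, 1)) ((τ * sp i) (j, 0)) ((τ * sp i) (j, 1))) i ?_ ?_,
    emb_sg_mul, sg_sp]
  · ring
  · simp only [Equiv.Perm.mul_apply, sp_0, sp_1]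
    exact ha _ _ _ _
  · intro j hj
    simp only [Equiv.Perm.mul_apply, sp_ne hj]

theorem F_l {T : T4 (Pos (k + 2))} (ha : ∀ a b c d, T b a c d = - T a b c d)
    (σ τ : Equiv.Perm (Pos (k + 2))) (i : Fin (k + 2)) : Ff T (σ * sp i) τ = Ff T σ τ := by
  unfold Ff
  rw [prod_flip (fun j => T (σ (j, 0)) (σ (j, 1)) (τ (j, 0)) (τ (j, 1)))
    (fun j => T ((σ * sp i) (j, 0)) ((σ * sp i) (j, 1)) (τ (j, 0)) (τ (j, 1))) i ?_ ?_,
    emb_sg_mul, sg_sp]
  · ring
  · simp only [Equiv.Perm.mul_apply, sp_0, sp_1]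
    exact ha _ _ _ _
  · intro j hj
    simp only [Equiv.Perm.mul_apply, sp_ne hj]

theorem F_g (T : T4 (Pos (k + 2))) (σ τ : Equiv.Perm (Pos (k + 2)))
    (ρ : Equiv.Perm (Fin (k + 2))) : Ff T (σ * gr ρ) (τ * gr ρ) = Ff T σ τ := by
  unfold Ff
  rw [emb_sg_mul, emb_sg_mul]
  simp only [Equiv.Perm.mul_apply, gr_apply]
  rw [Equiv.prod_comp ρ (fun j => T (σ (j, 0)) (σ (j, 1)) (τ (j, 0)) (τ (j, 1)))]
  have := emb_sg_sq (gr ρ)
  linear_combination (sg σ * sg τ * ∏ j, T (σ (j, 0)) (σ (j, 1)) (τ (j, 0)) (τ (j, 1))) * this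

/-- the part of the sum where the index `o` sits at the positions `z` and `z'` -/
noncomputable def AA (T : T4 (Pos (k + 2))) (o z z' : Pos (k + 2)) : ℝ :=
  ∑ σ : Equiv.Perm (Pos (k + 2)), ∑ τ : Equiv.Perm (Pos (k + 2)),
    if σ z = o ∧ τ z' = o then Ff T σ τ else 0

theorem gb_AA (T : T4 (Pos (k + 2))) (o : Pos (k + 2)) :
    gb (k + 2) T = ∑ z, ∑ z', AA T o z z' := by
  have h1 : ∀ σ τ : Equiv.Perm (Pos (k + 2)), ∑ z, ∑ z',
      (if σ z = o ∧ τ z' = o then Ff T σ τ else 0) = Ff T σ τ := by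
    intro σ τ
    rw [sum_eq_single (σ.symm o), sum_eq_single (τ.symm o)]
    · rw [if_pos]; simp
    · intro z _ hz
      rw [if_neg]
      rintro ⟨-, h⟩
      exact hz (by rw [← h]; simp)
    · intro h; exact absurd (mem_univ _) h
    · intro z _ hz
      refine sum_eq_zero fun z' _ => ?_
      rw [if_neg]
      rintro ⟨h, -⟩
      exact hz (by rw [← h]; simp)
    · intro h; exact absurd (mem_univ _) h
  unfold AA
  have h2 : ∑ z, ∑ z', ∑ σ : Equiv.Perm (Pos (k + 2)), ∑ τ : Equiv.Perm (Pos (k + 2)),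
      (if σ z = o ∧ τ z' = o then Ff T σ τ else 0) =
      ∑ σ : Equiv.Perm (Pos (k + 2)), ∑ τ : Equiv.Perm (Pos (k + 2)), ∑ z, ∑ z',
        (if σ z = o ∧ τ z' = o then Ff T σ τ else 0) := by
    have e1 : ∀ z, ∑ z', ∑ σ : Equiv.Perm (Pos (k + 2)), ∑ τ : Equiv.Perm (Pos (k + 2)),
        (if σ z = o ∧ τ z' = o then Ff T σ τ else 0) =
        ∑ σ : Equiv.Perm (Pos (k + 2)), ∑ τ : Equiv.Perm (Pos (k + 2)), ∑ z',
          (if σ z = o ∧ τ z' = o then Ff T σ τ else 0) := by
      intro z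
      rw [sum_comm]
      exact sum_congr rfl fun σ _ => sum_comm
    rw [sum_congr rfl fun z _ => e1 z, sum_comm]
    exact sum_congr rfl fun σ _ => sum_comm
  rw [h2]
  simp only [h1]
  rfl

theorem AA_l {T : T4 (Pos (k + 2))} (ha : ∀ a b c d, T b a c d = - T a b c d)
    (o : Pos (k + 2)) (i : Fin (k + 2)) (z' : Pos (k + 2)) :
    AA T o (i, 1) z' = AA T o (i, 0) z' := by
  unfold AA
  rw [← Equiv.sum_comp (Equiv.mulRight (sp i))]
  refine sum_congr rfl fun σ _ => sum_congr rfl fun τ _ => ?_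
  simp only [Equiv.coe_mulRight, Equiv.Perm.mul_apply, sp_1, F_l ha]

theorem AA_r {T : T4 (Pos (k + 2))} (ha : ∀ a b c d, T a b d c = - T a b c d)
    (o : Pos (k + 2)) (z : Pos (k + 2)) (i : Fin (k + 2)) :
    AA T o z (i, 1) = AA T o z (i, 0) := by
  unfold AA
  refine sum_congr rfl fun σ _ => ?_
  rw [← Equiv.sum_comp (Equiv.mulRight (sp i))]
  refine sum_congr rfl fun τ _ => ?_
  simp only [Equiv.coe_mulRight, Equiv.Perm.mul_apply, sp_1, F_r ha]

theorem AA_g (T : T4 (Pos (k + 2))) (o : Pos (k + 2)) (ρ : Equiv.Perm (Fin (k + 2)))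
    (i j : Fin (k + 2)) (a b : Fin 2) :
    AA T o (ρ i, a) (ρ j, b) = AA T o (i, a) (j, b) := by
  unfold AA
  rw [← Equiv.sum_comp (Equiv.mulRight (gr ρ)) (fun σ => ∑ τ : Equiv.Perm (Pos (k + 2)),
    if σ (i, a) = o ∧ τ (j, b) = o then Ff T σ τ else 0)]
  refine sum_congr rfl fun σ _ => ?_
  rw [← Equiv.sum_comp (Equiv.mulRight (gr ρ)) (fun τ =>
    if (Equiv.mulRight (gr ρ) σ) (i, a) = o ∧ τ (j, b) = o then
      Ff T (Equiv.mulRight (gr ρ) σ) τ else 0)]
  refine sum_congr rfl fun τ _ => ?_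
  simp only [Equiv.coe_mulRight, Equiv.Perm.mul_apply, gr_apply, F_g]

/-- sorting by the positions of `o` -/
theorem gb_split {T : T4 (Pos (k + 2))} (ha1 : ∀ a b c d, T b a c d = - T a b c d)
    (ha2 : ∀ a b c d, T a b d c = - T a b c d) (o : Pos (k + 2)) :
    gb (k + 2) T = 4 * ((k : ℝ) + 2) *
      (AA T o (0, 0) (0, 0) + ((k : ℝ) + 1) * AA T o (0, 0) (1, 0)) := by
  have hz : ∀ z, AA T o z = AA T o (z.1, 0) := by
    rintro ⟨i, a⟩
    funext z'
    fin_cases a
    · rfl
    · exact AA_l ha1 o i z'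
  have hz' : ∀ z z', AA T o z z' = AA T o (z.1, 0) (z'.1, 0) := by
    intro z z'
    rw [hz z]
    obtain ⟨j, b⟩ := z'
    fin_cases b
    · rfl
    · exact AA_r ha2 o _ j
  have hij : ∀ i j : Fin (k + 2), AA T o (i, 0) (j, 0) =
      if i = j then AA T o (0, 0) (0, 0) else AA T o (0, 0) (1, 0) := by
    intro i j
    by_cases h : i = j
    · subst h
      rw [if_pos rfl]
      have := AA_g T o (Equiv.swap i 0) i i 0 0
      rw [Equiv.swap_apply_left] at this
      exact this.symm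
    · rw [if_neg h]
      have h1 := AA_g T o (Equiv.swap i 0) i j 0 0
      rw [Equiv.swap_apply_left] at h1
      have hne : Equiv.swap i 0 j ≠ 0 := by
        intro e
        have e2 : Equiv.swap i 0 j = Equiv.swap i 0 i := by rw [e, Equiv.swap_apply_left]
        exact h ((Equiv.swap i 0).injective e2).symm
      have h2 := AA_g T o (Equiv.swap (Equiv.swap i 0 j) 1) 0 (Equiv.swap i 0 j) 0 0
      rw [Equiv.swap_apply_left, Equiv.swap_apply_of_ne_of_ne hne.symm (by simp)] at h2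
      rw [← h1, ← h2]
  rw [gb_AA T o]
  have e1 : ∀ z : Pos (k + 2), ∑ z', AA T o z z' =
      2 * (AA T o (0, 0) (0, 0) + ((k : ℝ) + 1) * AA T o (0, 0) (1, 0)) := by
    intro z
    rw [Fintype.sum_prod_type]
    have e2 : ∀ j : Fin (k + 2), ∑ b : Fin 2, AA T o z (j, b) =
        (if z.1 = j then 2 * (AA T o (0, 0) (0, 0) - AA T o (0, 0) (1, 0)) else 0) +
          2 * AA T o (0, 0) (1, 0) := by
      intro j
      have hb : ∀ b, AA T o z (j, b) = AA T o (z.1, 0) (j, 0) := fun b => hz' z (j, b)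
      rw [Fin.sum_univ_two, hb 0, hb 1, hij z.1 j]
      split_ifs <;> ring
    rw [sum_congr rfl fun j _ => e2 j, sum_add_distrib, sum_ite_eq univ z.1, if_pos (mem_univ _),
      sum_const, card_univ, Fintype.card_fin, nsmul_eq_mul]
    push_cast
    ring
  rw [sum_congr rfl fun z _ => e1 z, sum_const, card_univ, Fintype.card_prod, Fintype.card_fin,
    Fintype.card_fin, nsmul_eq_mul]
  push_cast
  ring

/-- permutations preserving pairs may be assumed to fix them -/
theorem fix_pairs (S : Finset (Fin (k + 2))) : ∀ f : Equiv.Perm (Pos (k + 2)) → ℝ,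
    (∀ i ∈ S, ∀ π, f (π * sp i) = f π) →
    (∀ i ∈ S, ∀ π, f π ≠ 0 → (π (i, 0) = (i, 0) ∧ π (i, 1) = (i, 1)) ∨
      (π (i, 0) = (i, 1) ∧ π (i, 1) = (i, 0))) →
    ∑ π, f π = 2 ^ S.card * ∑ π, if (∀ i ∈ S, π (i, 0) = (i, 0) ∧ π (i, 1) = (i, 1)) then f π
      else 0 := by
  induction S using Finset.induction_on with
  | empty => intro f _ _; simp
  | insert i S hi ih =>
    intro f hinv hsup
    set f' : Equiv.Perm (Pos (k + 2)) → ℝ := fun π =>
      if π (i, 0) = (i, 0) ∧ π (i, 1) = (i, 1) then f π else 0 with hf'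
    have hne01 : ((i, 0) : Pos (k + 2)) ≠ (i, 1) := by simp
    have h1 : ∑ π, f π = 2 * ∑ π, f' π := by
      have h2 : ∀ π, f π = f' π + f' (π * sp i) := by
        intro π
        simp only [hf', Equiv.Perm.mul_apply, sp_0, sp_1, hinv i (mem_insert_self i S) π]
        by_cases h0 : f π = 0
        · simp [h0]
        · rcases hsup i (mem_insert_self i S) π h0 with h | h
          · rw [if_pos h, if_neg]
            · ring
            · rintro ⟨h3, -⟩
              rw [h.2] at h3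
              exact hne01 h3.symm
          · rw [if_neg, if_pos ⟨h.2, h.1⟩]
            · ring
            · rintro ⟨h3, -⟩
              rw [h.1] at h3
              exact hne01 h3.symm
      rw [sum_congr rfl fun π _ => h2 π, sum_add_distrib]
      have h3 := Equiv.sum_comp (Equiv.mulRight (sp i)) f'
      simp only [Equiv.coe_mulRight] at h3
      rw [h3]
      ring
    have hle : ∀ π, f' π ≠ 0 → f π ≠ 0 := by
      intro π h h0
      apply h
      simp only [hf', h0, ite_self]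
    rw [h1, ih f' ?_ ?_, card_insert_of_notMem hi, pow_succ]
    · have h4 : ∀ π : Equiv.Perm (Pos (k + 2)),
          (if (∀ j ∈ S, π (j, 0) = (j, 0) ∧ π (j, 1) = (j, 1)) then f' π else 0) =
          if (∀ j ∈ insert i S, π (j, 0) = (j, 0) ∧ π (j, 1) = (j, 1)) then f π else 0 := by
        intro π
        simp only [hf', forall_mem_insert]
        by_cases h5 : ∀ j ∈ S, π (j, 0) = (j, 0) ∧ π (j, 1) = (j, 1)
        · by_cases h6 : π (i, 0) = (i, 0) ∧ π (i, 1) = (i, 1)
          · rw [if_pos h5, if_pos h6, if_pos ⟨h6, h5⟩]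
          · rw [if_pos h5, if_neg h6, if_neg fun h7 => h6 h7.1]
        · rw [if_neg h5, if_neg fun h7 => h5 h7.2]
      rw [sum_congr rfl fun π _ => h4 π]
      ring
    · intro j hj π
      have hji : i ≠ j := fun e => hi (e ▸ hj)
      simp only [hf', Equiv.Perm.mul_apply, sp_ne hji, hinv j (mem_insert_of_mem hj) π]
    · intro j hj π h
      exact hsup j (mem_insert_of_mem hj) π (hle π h)

/-- decomposition of permutations by the value at one point -/
theorem sum_dec {P : Type} [Fintype P] [DecidableEq P] (a : P) (g : Equiv.Perm P → ℝ) :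
    ∑ π, g π = ∑ w, ∑ π : Equiv.Perm P, if π a = a then g (Equiv.swap a w * π) else 0 := by
  have h1 : ∀ π : Equiv.Perm P, g π = ∑ w, if π a = w then g π else 0 := by
    intro π
    rw [sum_ite_eq univ (π a), if_pos (mem_univ _)]
  rw [sum_congr rfl fun π _ => h1 π, sum_comm]
  refine sum_congr rfl fun w _ => ?_
  rw [← Equiv.sum_comp (Equiv.mulLeft (Equiv.swap a w))]
  refine sum_congr rfl fun π _ => ?_
  simp only [Equiv.coe_mulLeft, Equiv.Perm.mul_apply]
  have h2 : Equiv.swap a w (π a) = w ↔ π a = a := by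
    constructor
    · intro h
      have : Equiv.swap a w (π a) = Equiv.swap a w a := by rw [h, Equiv.swap_apply_left]
      exact (Equiv.swap a w).injective this
    · intro h
      rw [h, Equiv.swap_apply_left]
  simp only [h2]

/-- a permutation fixing all points but one is the identity -/
theorem eq_one_of_fix {P : Type} (π : Equiv.Perm P) (w : P) (h : ∀ z, z ≠ w → π z = z) :
    π = 1 := by
  have hw : π w = w := by
    by_contra hne
    have h1 := h (π w) hne
    exact hne (π.injective h1)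
  ext z
  by_cases hz : z = w
  · rw [hz, hw]; rfl
  · rw [h z hz]; rfl

end Pool.Agent.Helper49.HY
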