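import Pool.Agent.Helper49.HY.Fn

/-!
# Pure hyperplanes: positive curvature
-/

set_option autoImplicit false
set_option linter.all false

namespace Pool.Agent.Helper49.HY.Fn

open Finset MeasureTheory Pool.Agent.W666.GB

section defs

variable {V : Type*} [NormedAddCommGroup V] [InnerProductSpace ℝ V]

/-- all planes containing one of the vectors `f a`, `a ≠ o`, have curvature at least `κ` -/
def PlanesGe {ι : Type} (R : V → V → V → V → ℝ) (f : ι → V) (o : ι) (κ : ℝ) : Prop :=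
  ∀ a, a ≠ o → ∀ x : V, ‖x‖ = 1 → inner ℝ (f a) x = 0 → κ ≤ R (f a) x (f a) x

/-- all sectional curvatures are at least `κ` -/
def SecGe (R : V → V → V → V → ℝ) (κ : ℝ) : Prop :=
  ∀ x y : V, ‖x‖ = 1 → ‖y‖ = 1 → inner ℝ x y = 0 → κ ≤ R x y x y

/-- all sectional curvatures are positive -/
def SecPos (R : V → V → V → V → ℝ) : Prop :=
  ∀ x y : V, ‖x‖ = 1 → ‖y‖ = 1 → inner ℝ x y = 0 → 0 < R x y x y

end defs

section point

variable {V : Type*} [NormedAddCommGroup V] [InnerProductSpace ℝ V] {m : ℕ}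

theorem neg_curv {R : V → V → V → V → ℝ} (h : AlgCurv R) :
    AlgCurv (fun x y z w => - R x y z w) where
  add x x' y z w := by rw [h.add]; ring
  smul t x y z w := by rw [h.smul]; ring
  anti x y z w := by rw [h.anti]
  pair x y z w := by rw [h.pair]
  bianchi x y z w := by linarith [h.bianchi x y z w]

theorem neg_gb (e : OrthonormalBasis (Fin m × Bool) ℝ V) (R : V → V → V → V → ℝ) :
    (-1) ^ m * gbc e (fun x y z w => - R x y z w) = gbc e R := by
  have h2 : ∀ σ τ : Equiv.Perm (Fin m × Bool), ∏ b : Fin m,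
      -R (e (σ (b, false))) (e (σ (b, true))) (e (τ (b, false))) (e (τ (b, true))) =
      (-1) ^ m * ∏ b : Fin m,
        R (e (σ (b, false))) (e (σ (b, true))) (e (τ (b, false))) (e (τ (b, true))) := by
    intro σ τ
    rw [Finset.prod_neg, Finset.card_univ, Fintype.card_fin]
  have h3 : ((-1 : ℝ) ^ m) * (-1) ^ m = 1 := by
    rw [← mul_pow]; norm_num
  simp only [gbc, h2, Finset.mul_sum]
  refine Finset.sum_congr rfl fun σ _ => Finset.sum_congr rfl fun τ _ => ?_
  linear_combination (1 / ((8 * Real.pi) ^ m * (m.factorial : ℝ)) *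
    (((Equiv.Perm.sign σ : ℤ) : ℝ) * ((Equiv.Perm.sign τ : ℤ) : ℝ) *
      ∏ b : Fin m, R (e (σ (b, false))) (e (σ (b, true))) (e (τ (b, false)))
        (e (τ (b, true))))) * h3

theorem neg_pure {ι : Type} {R : V → V → V → V → ℝ} {f : ι → V} {o : ι} (h : PureOn R f o) :
    PureOn (fun x y z w => - R x y z w) f o := by
  intro a b c d ha hb hc hd hn
  have := h a b c d ha hb hc hd hn
  simp only [this, neg_zero]

theorem neg_hyper {R : V → V → V → V → ℝ} (h : HyperPure m R) :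
    HyperPure m (fun x y z w => - R x y z w) := by
  obtain ⟨f, o, h⟩ := h
  exact ⟨f, o, neg_pure h⟩

theorem pos_point (e : OrthonormalBasis (Fin m × Bool) ℝ V) {R : V → V → V → V → ℝ}
    (h : AlgCurv R) {f : OrthonormalBasis (Fin m × Bool) ℝ V} {o : Fin m × Bool}
    (hp : PureOn R f o) {κ : ℝ} (hκ : 0 ≤ κ) (hs : PlanesGe R f o κ) :
    roundGB m κ ≤ gbc e R := by
  have h1 := point e (neg_curv h) (neg_pure hp) hκ (fun a ha x hx hfx => by
    have := hs a ha x hx hfx
    show - R (f a) x (f a) x ≤ -κ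
    linarith)
  rwa [neg_gb] at h1

theorem pos_sec (e : OrthonormalBasis (Fin m × Bool) ℝ V) {R : V → V → V → V → ℝ}
    (h : AlgCurv R) (hp : HyperPure m R) {κ : ℝ} (hκ : 0 ≤ κ) (hs : SecGe R κ) :
    roundGB m κ ≤ gbc e R := by
  have h1 := point_sec e (neg_curv h) (neg_hyper hp) hκ (fun x y hx hy hxy => by
    have := hs x y hx hy hxy
    show - R x y x y ≤ -κ
    linarith)
  rwa [neg_gb] at h1

theorem pos_pos (hm : 1 ≤ m) (e : OrthonormalBasis (Fin m × Bool) ℝ V)
    {R : V → V → V → V → ℝ} (h : AlgCurv R) (hp : HyperPure m R) (hs : SecPos R) :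
    0 < gbc e R := by
  have h1 := point_neg hm e (neg_curv h) (neg_hyper hp) (fun x y hx hy hxy => by
    have := hs x y hx hy hxy
    show - R x y x y < 0
    linarith)
  rwa [neg_gb] at h1

end point

section int

variable {m : ℕ} {M : Type}

theorem pos_nonneg (K : CurvField m M) (p : M) (hp : HyperPure m (K.R p))
    (hs : SecGe (K.R p) 0) : 0 ≤ K.gb p := by
  refine le_trans ?_ (pos_sec (K.e p) (K.curv p) hp le_rfl hs)
  have := Real.pi_pos
  unfold roundGB
  positivity

theorem pos_int [MeasurableSpace M] (hm : 1 ≤ m) (μ : Measure M) (K : CurvField m M)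
    (h : ∀ᵐ p ∂μ, HyperPure m (K.R p) ∧ SecGe (K.R p) 0) :
    0 ≤ ∫ p, K.gb p ∂μ ∧
    (Integrable K.gb μ → ∀ κ : M → ℝ, Integrable (fun p => roundGB m (κ p)) μ →
      (∀ᵐ p ∂μ, 0 ≤ κ p ∧ SecGe (K.R p) (κ p)) →
      ∫ p, roundGB m (κ p) ∂μ ≤ ∫ p, K.gb p ∂μ) ∧
    (Integrable K.gb μ → μ {p | SecPos (K.R p)} ≠ 0 → 0 < ∫ p, K.gb p ∂μ) := by
  have h0 : 0 ≤ᵐ[μ] fun p => K.gb p := by
    filter_upwards [h] with p hp
    exact pos_nonneg K p hp.1 hp.2
  refine ⟨integral_nonneg_of_ae h0, ?_, ?_⟩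
  · intro hi κ hκi hκ
    refine integral_mono_ae hκi hi ?_
    filter_upwards [h, hκ] with p hp hq
    exact pos_sec (K.e p) (K.curv p) hp.1 hq.1 hq.2
  · intro hi hμ
    rw [integral_pos_iff_support_of_nonneg_ae h0 hi]
    refine pos_iff_ne_zero.2 ?_
    intro h1
    apply hμ
    have h2 : ∀ᵐ p ∂μ, p ∉ Function.support fun p => K.gb p :=
      measure_eq_zero_iff_ae_notMem.1 h1
    rw [measure_eq_zero_iff_ae_notMem]
    filter_upwards [h, h2] with p hp hq hr
    exact hq (pos_pos hm (K.e p) (K.curv p) hp.1 hr).ne'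

end int

end Pool.Agent.Helper49.HY.Fn
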